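import Pool.Agent.Helper33.WL.Defs

/-!
# Block WL-B1: all involutions are conjugate; the subfield of an overgroup of `SL_2(2)`

`X` is a subgroup of `SL_2(K)`, `K` a finite field of characteristic two, `uu 1 ∈ X`, `ww K ∈ X`.

* `conj_u`. Let `x ∈ X`, `tt x = 0`, `x ≠ 1`. If `c = x.1 1 0 ≠ 0`: `tt (uu 1 * x) = c ≠ 0` (because
  `x.1 0 0 = x.1 1 1`, characteristic two), so `conj_of_tt_ne` gives `g`. If `c = 0`: `det_one` gives
  `x.1 0 0 = 1 = x.1 1 1` (`a * a = 1` in characteristic two), so `x = uu b`, `b ≠ 0`. Let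
  `l = ww K * uu 1 * (ww K)⁻¹ = (1 0; 1 1) ∈ X`: `tt (l * x) = b ≠ 0`, so `x = g * l * g⁻¹` and `l` is
  conjugate to `uu 1` by `ww K`.
* `exists_fld`. `{b | uu b ∈ X}` contains `0, 1`, is closed under `+` (`uu_add`) and `-` (characteristic
  two). Closed under products: let `s ≠ 0`, `uu s ∈ X`, `uu s' ∈ X`. By `conj_u` there is `g ∈ X` with
  `g * uu 1 * g⁻¹ = uu s`, i.e. `g * uu 1 = uu s * g`. Compare entries: `g.1 1 0 = 0` and
  `g.1 0 0 = s * g.1 1 1`; with `det_one`: `g.1 0 0 * g.1 1 1 = 1`. So `g * uu s' = uu (s * s') * g`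
  (entries again: `g.1 0 0 * s' = s * s' * g.1 1 1`), hence `uu (s * s') = g * uu s' * g⁻¹ ∈ X`.
  Closed under inverses: `b⁻¹ = b ^ (n - 1)` where `n = orderOf b` in the finite group of units (or
  `b⁻¹ = b ^ (Nat.card K - 2)`), and powers are products.
* `mem_of_entries`. Let `x = (a b; c d)` have entries in `E`. If `c ≠ 0`:
  `x = uu (a * c⁻¹) * (l c * uu c⁻¹ * l c) * uu (d * c⁻¹)` with `l c = ww K * uu c * ww K = (1 0; c 1)`
  (`l c * uu c⁻¹ * l c = (0 c⁻¹; c 0)`). If `c = 0`: then `a ≠ 0`, and `ww K * x` has lower left entry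
  `a ≠ 0`, so it is in `X` by the first case, and `x = ww K * (ww K * x)` (`ww K * ww K = 1`).
-/

set_option autoImplicit false
set_option linter.unusedSectionVars false

namespace Pool.Agent.H33WL

variable {K : Type} [Field K] [CharP K 2] [Finite K] {X : Subgroup (G2 K)}

theorem conj_u (hu : uu (1 : K) ∈ X) (hw : ww K ∈ X) {x : G2 K} (hx : x ∈ X) (h0 : tt x = 0)
    (h1 : x ≠ 1) : ∃ g ∈ X, g * uu 1 * g⁻¹ = x := by
  by_cases hc : x.1 1 0 = 0
  · have hd := det_one x
    have hdd : x.1 1 1 = x.1 0 0 := (eq_of_add_zero h0).symm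
    rw [hc, mul_zero, add_zero, hdd] at hd
    have ha : x.1 0 0 = 1 := by
      have : (x.1 0 0 + 1) * (x.1 0 0 + 1) = 0 := by
        linear_combination hd + two_zero (x.1 0 0) + two_zero (1 : K)
      exact eq_of_add_zero (mul_self_eq_zero.1 this)
    have hb : x.1 0 1 ≠ 0 := by
      intro hb
      apply h1
      apply g_ext
      · rw [ha, one00]
      · rw [hb, one01]
      · rw [hc, one10]
      · rw [hdd, ha, one11]
    have hl : ww K * uu 1 * (ww K)⁻¹ ∈ X := X.mul_mem (X.mul_mem hw hu) (X.inv_mem hw)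
    have htl : tt (ww K * uu 1 * (ww K)⁻¹) = 0 := by rw [tt_conj, tt_uu]
    have htx : tt (ww K * uu 1 * (ww K)⁻¹ * x) ≠ 0 := by
      have : tt (ww K * uu 1 * (ww K)⁻¹ * x) = x.1 0 1 := by
        simp only [tt, mul00, mul01, mul10, mul11, ww00, ww01, ww10, ww11, uu00, uu01, uu10, uu11,
          inv00, inv01, inv10, inv11, hc, hdd, ha]
        linear_combination two_zero (1 : K)
      rw [this]
      exact hb
    obtain ⟨g, hg, hgx⟩ := conj_of_tt_ne hl hx htl h0 htx
    refine ⟨g * ww K, X.mul_mem hg hw, ?_⟩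
    rw [← hgx, _root_.mul_inv_rev]
    simp only [mul_assoc]
  · refine conj_of_tt_ne hu hx (tt_uu 1) h0 ?_
    have : tt (uu 1 * x) = x.1 1 0 := by
      simp only [tt, mul00, mul11, uu00, uu01, uu10, uu11]
      have h0' : x.1 0 0 + x.1 1 1 = 0 := h0
      linear_combination h0'
    rw [this]
    exact hc

private theorem mul_aux46 (hu : uu (1 : K) ∈ X) (hw : ww K ∈ X) {s s' : K} (hs : uu s ∈ X)
    (hs' : uu s' ∈ X) : uu (s * s') ∈ X := by
  by_cases h0 : s = 0
  · rw [h0, zero_mul, uu_zero]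
    exact X.one_mem
  · obtain ⟨g, hg, h⟩ := conj_u hu hw hs (tt_uu s) (fun h => h0 (uu_inj (h.trans uu_zero.symm)))
    have h1 : g * uu 1 = uu s * g := by
      rw [← h, inv_mul_cancel_right]
    have e00 := congrArg (fun x : G2 K => x.1 0 0) h1
    have e01 := congrArg (fun x : G2 K => x.1 0 1) h1
    simp only [mul00, mul01, uu00, uu01, uu10, uu11] at e00 e01
    have h10 : g.1 1 0 = 0 := by
      have : s * g.1 1 0 = 0 := by linear_combination -e00
      exact (mul_eq_zero.1 this).resolve_left h0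
    have h00 : g.1 0 0 = s * g.1 1 1 := by linear_combination e01
    have h2 : g * uu s' = uu (s * s') * g := by
      apply g_ext
      · simp only [mul00, uu00, uu01, uu10, h10]
        ring
      · simp only [mul01, uu00, uu01, uu11, h00]
        ring
      · simp only [mul10, uu00, uu10, uu11, h10]
        ring
      · simp only [mul11, uu01, uu10, uu11, h10]
        ring
    have h3 : uu (s * s') = g * uu s' * g⁻¹ := by
      rw [h2, mul_inv_cancel_right]
    rw [h3]
    exact X.mul_mem (X.mul_mem hg hs') (X.inv_mem hg)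

private theorem pow_aux46 (hu : uu (1 : K) ∈ X) (hw : ww K ∈ X) {s : K} (hs : uu s ∈ X) (n : ℕ) :
    uu (s ^ n) ∈ X := by
  induction n with
  | zero => rw [pow_zero]; exact hu
  | succ n ih => rw [pow_succ]; exact mul_aux46 hu hw ih hs

theorem exists_fld (hu : uu (1 : K) ∈ X) (hw : ww K ∈ X) :
    ∃ E : Subfield K, ∀ b : K, b ∈ E ↔ uu b ∈ X := by
  refine ⟨{ carrier := {b | uu b ∈ X}
            mul_mem' := fun ha hb => mul_aux46 hu hw ha hb
            one_mem' := hu
            add_mem' := ?_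
            zero_mem' := ?_
            neg_mem' := ?_
            inv_mem' := ?_ }, fun b => Iff.rfl⟩
  · intro a b ha hb
    show uu (a + b) ∈ X
    rw [uu_add]
    exact X.mul_mem ha hb
  · show uu (0 : K) ∈ X
    rw [uu_zero]
    exact X.one_mem
  · intro a ha
    show uu (-a) ∈ X
    rw [CharTwo.neg_eq]
    exact ha
  · intro a ha
    show uu (a⁻¹) ∈ X
    by_cases h0 : a = 0
    · rw [h0, inv_zero, uu_zero]
      exact X.one_mem
    · have hpos : 0 < orderOf (Units.mk0 a h0) := orderOf_pos _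
      have h1 : a ^ orderOf (Units.mk0 a h0) = 1 := by
        have := congrArg (fun u : Kˣ => (u : K)) (pow_orderOf_eq_one (Units.mk0 a h0))
        rwa [Units.val_pow_eq_pow_val, Units.val_mk0, Units.val_one] at this
      have h2 : a⁻¹ = a ^ (orderOf (Units.mk0 a h0) - 1) := by
        symm
        apply eq_inv_of_mul_eq_one_left
        rw [← pow_succ, Nat.sub_add_cancel hpos, h1]
      rw [h2]
      exact pow_aux46 hu hw ha _

/-- The matrix `(0 c⁻¹; c 0)`. -/
private theorem anti46 {c : K} (hc : c ≠ 0) :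
    ((ww K * uu c * ww K) * uu c⁻¹ * (ww K * uu c * ww K)).1 0 0 = 0 ∧
    ((ww K * uu c * ww K) * uu c⁻¹ * (ww K * uu c * ww K)).1 0 1 = c⁻¹ ∧
    ((ww K * uu c * ww K) * uu c⁻¹ * (ww K * uu c * ww K)).1 1 0 = c ∧
    ((ww K * uu c * ww K) * uu c⁻¹ * (ww K * uu c * ww K)).1 1 1 = 0 := by
  have h1 : c⁻¹ * c = 1 := inv_mul_cancel₀ hc
  have h2 : (1 : K) + 1 = 0 := two_zero 1
  simp only [mul00, mul01, mul10, mul11, ww00, ww01, ww10, ww11, uu00, uu01, uu10, uu11,
    zero_mul, mul_zero, zero_add, add_zero, one_mul, mul_one]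
  refine ⟨?_, ?_, ?_, ?_⟩
  · linear_combination h1 + h2
  · trivial
  · linear_combination c * h1 + c * h2
  · linear_combination h1 + h2

private theorem mem_aux46 (hw : ww K ∈ X) {E : Subfield K} (hE : ∀ b : K, b ∈ E ↔ uu b ∈ X)
    {x : G2 K} (hx : x ∈ sle E) (hc : x.1 1 0 ≠ 0) : x ∈ X := by
  obtain ⟨ha, hb, hcE, hd⟩ := mem_sle.1 hx
  have hdet := det_one x
  have hl : ww K * uu (x.1 1 0) * ww K ∈ X := X.mul_mem (X.mul_mem hw ((hE _).1 hcE)) hw
  obtain ⟨m00, m01, m10, m11⟩ := anti46 (K := K) hc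
  have h1 : (x.1 1 0)⁻¹ * x.1 1 0 = 1 := inv_mul_cancel₀ hc
  have e : x = uu (x.1 0 0 * (x.1 1 0)⁻¹) *
      ((ww K * uu (x.1 1 0) * ww K) * uu ((x.1 1 0)⁻¹) * (ww K * uu (x.1 1 0) * ww K)) *
      uu (x.1 1 1 * (x.1 1 0)⁻¹) := by
    apply g_ext
    · rw [mul00, mul00, mul01, m00, m01, m10, m11]
      simp only [uu00, uu01, uu10]
      linear_combination (-(x.1 0 0)) * h1
    · rw [mul01, mul00, mul01, m00, m01, m10, m11]
      simp only [uu00, uu01, uu11]
      linear_combination (x.1 1 0)⁻¹ * hdet - (x.1 0 1 + x.1 0 0 * x.1 1 1 * (x.1 1 0)⁻¹) * h1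
        - two_zero ((x.1 1 0)⁻¹ * x.1 0 0 * x.1 1 1)
    · rw [mul10, mul10, mul11, m00, m01, m10, m11]
      simp only [uu00, uu10, uu11]
      ring
    · rw [mul11, mul10, mul11, m00, m01, m10, m11]
      simp only [uu01, uu10, uu11]
      linear_combination (-(x.1 1 1)) * h1
  rw [e]
  exact X.mul_mem (X.mul_mem ((hE _).1 (E.mul_mem ha (E.inv_mem hcE)))
    (X.mul_mem (X.mul_mem hl ((hE _).1 (E.inv_mem hcE))) hl))
    ((hE _).1 (E.mul_mem hd (E.inv_mem hcE)))

theorem mem_of_entries (hw : ww K ∈ X) {E : Subfield K} (hE : ∀ b : K, b ∈ E ↔ uu b ∈ X)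
    {x : G2 K} (hx : x ∈ sle E) : x ∈ X := by
  by_cases hc : x.1 1 0 = 0
  · have hd := det_one x
    rw [hc, mul_zero, add_zero] at hd
    have ha : x.1 0 0 ≠ 0 := left_ne_zero_of_mul_eq_one hd
    have hwE : ww K ∈ sle E := mem_sle.2 ⟨by rw [ww00]; exact E.zero_mem,
      by rw [ww01]; exact E.one_mem, by rw [ww10]; exact E.one_mem,
      by rw [ww11]; exact E.zero_mem⟩
    have h1 : ww K * x ∈ X := by
      refine mem_aux46 hw hE ((sle E).mul_mem hwE hx) ?_
      rw [mul10, ww10, ww11, hc, one_mul, mul_zero, add_zero]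
      exact ha
    have h2 : x = ww K * (ww K * x) := by
      rw [← mul_assoc, (sq_one_iff (ww K)).2 tt_ww, one_mul]
    rw [h2]
    exact X.mul_mem hw h1
  · exact mem_aux46 hw hE hx hc

end Pool.Agent.H33WL
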