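import Pool.Agent.Helper33.WL.B1

/-!
# Block WL-B2: the number of involutions

`Iv X = {x ∈ X | x ≠ 1, tt x = 0}` (the elements of order two of `X`).

* `card_eq`: `X` acts on itself by conjugation; the class of `uu 1` is `Iv X` (`conj_u`; conversely
  `tt_conj`, `tt_uu`, and conjugates of `uu 1 ≠ 1` are `≠ 1`), and the centralizer of `uu 1` in `X` is
  `{uu b | uu b ∈ X}`, in bijection with `E`: if `x * uu 1 = uu 1 * x` then (entries) `x.1 1 0 = 0`
  and `x.1 0 0 = x.1 1 1`, and `det_one` gives `x.1 0 0 = 1`. So `|X| = |E| |Iv X|`. (Orbit stabilizer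
  theorem, e.g. `MulAction.card_orbit_mul_card_stabilizer_eq_card_group` for `ConjAct X` or for
  `MulAut.conj`, or directly: the fibres of `X → Iv X`, `g ↦ g * uu 1 * g⁻¹`, are cosets of the
  centralizer, all of size `|E|`; e.g. choose for every `i ∈ Iv X` some `g_i ∈ X` with
  `g_i * uu 1 * g_i⁻¹ = i`; then `(i, b) ↦ g_i * uu b` is a bijection from `Iv X × E` to `X`.)
* `card_Iv_sle`: `(b, c) ↦ (a b; c a)`, `a = √(1 + b c)` (squaring is bijective on the finite field
  `E` of characteristic two, `a` is the unique element of `E` with `a * a = 1 + b * c`), is a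
  bijection from `E × E` to the matrices of trace zero in `sle E`; remove the identity
  (`b = c = 0`).
-/

set_option autoImplicit false
set_option linter.unusedSectionVars false

namespace Pool.Agent.H33WL

variable {K : Type} [Field K] [CharP K 2] [Finite K] {X : Subgroup (G2 K)}

private theorem sq_inj75 {K : Type} [Field K] [CharP K 2] {a b : K} (h : a * a = b * b) : a = b := by
  have h1 : (a + b) * (a + b) = 0 := by
    linear_combination h + two_zero (a * b) + two_zero (b * b)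
  exact eq_of_add_zero (mul_self_eq_zero.1 h1)

private theorem uu_comm75 {K : Type} [Field K] [CharP K 2] (a b : K) : uu a * uu b = uu b * uu a := by
  rw [← uu_add, ← uu_add, add_comm]

private theorem uu1_ne75 {K : Type} [Field K] [CharP K 2] : uu (1 : K) ≠ 1 := by
  intro h
  rw [← uu_zero] at h
  exact one_ne_zero (uu_inj h)

private theorem conj75 {K : Type} [Field K] [CharP K 2] (g : G2 K) (b : K) :
    (g * uu b) * uu 1 * (g * uu b)⁻¹ = g * uu 1 * g⁻¹ := by
  rw [_root_.mul_inv_rev, mul_assoc g, uu_comm75 b 1]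
  group

private theorem cent75 {K : Type} [Field K] [CharP K 2] {y : G2 K} (h : y * uu 1 = uu 1 * y) : y = uu (y.1 0 1) := by
  have h00 := congrArg (fun y : G2 K => y.1 0 0) h
  have h01 := congrArg (fun y : G2 K => y.1 0 1) h
  simp only [mul00, mul01, uu00, uu01, uu10, uu11, mul_one, mul_zero, one_mul, add_zero] at h00 h01
  have hc : y.1 1 0 = 0 := by linear_combination -h00
  have hd : y.1 1 1 = y.1 0 0 := by linear_combination -h01
  have hdet := det_one y
  rw [hc, hd, mul_zero, add_zero] at hdet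
  have ha : y.1 0 0 = 1 := sq_inj75 (by rw [hdet, one_mul])
  apply g_ext
  · rw [ha, uu00]
  · rw [uu01]
  · rw [hc, uu10]
  · rw [hd, ha, uu11]

theorem card_eq (hu : uu (1 : K) ∈ X) (hw : ww K ∈ X) {E : Subfield K}
    (hE : ∀ b : K, b ∈ E ↔ uu b ∈ X) : Nat.card X = Nat.card E * Nat.card (Iv X) := by
  have hg : ∀ i : Iv X, ∃ g : G2 K, g ∈ X ∧ g * uu 1 * g⁻¹ = (i : G2 K) := by
    rintro ⟨x, hx, h1, h0⟩
    obtain ⟨g, hg, hgx⟩ := conj_u hu hw hx h0 h1
    exact ⟨g, hg, hgx⟩
  choose g hgX hgi using hg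
  let f : (E × Iv X) → X := fun p => ⟨g p.2 * uu (p.1 : K), X.mul_mem (hgX p.2) ((hE _).1 p.1.2)⟩
  have hf : ∀ p, ((f p : X) : G2 K) = g p.2 * uu (p.1 : K) := fun p => rfl
  have hbij : Function.Bijective f := by
    constructor
    · rintro ⟨b, i⟩ ⟨b', i'⟩ h
      have h1 : g i * uu (b : K) = g i' * uu (b' : K) := congrArg Subtype.val h
      have h2 : (i : G2 K) = i' := by
        rw [← hgi i, ← hgi i', ← conj75 (g i) b, ← conj75 (g i') b', h1]
      have h3 : i = i' := Subtype.ext h2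
      subst h3
      have h4 : b = b' := Subtype.ext (uu_inj (mul_left_cancel h1))
      rw [h4]
    · rintro ⟨x, hx⟩
      have hi : x * uu 1 * x⁻¹ ∈ Iv X := by
        refine ⟨X.mul_mem (X.mul_mem hx hu) (X.inv_mem hx), ?_, ?_⟩
        · intro h
          rw [mul_inv_eq_one] at h
          exact uu1_ne75 (mul_left_cancel (h.trans (mul_one x).symm))
        · rw [tt_conj, tt_uu]
      obtain ⟨i, hiv⟩ : ∃ i : Iv X, (i : G2 K) = x * uu 1 * x⁻¹ := ⟨⟨_, hi⟩, rfl⟩
      have hgx := hgi i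
      rw [hiv] at hgx
      have hy : ((g i)⁻¹ * x) * uu 1 = uu 1 * ((g i)⁻¹ * x) := by
        have h1 : x * uu 1 = g i * uu 1 * (g i)⁻¹ * x := by
          rw [hgx]
          group
        calc ((g i)⁻¹ * x) * uu 1 = (g i)⁻¹ * (x * uu 1) := mul_assoc _ _ _
          _ = (g i)⁻¹ * (g i * uu 1 * (g i)⁻¹ * x) := by rw [← h1]
          _ = uu 1 * ((g i)⁻¹ * x) := by group
      have hyu := cent75 hy
      obtain ⟨b, hb⟩ : ∃ b, b = ((g i)⁻¹ * x).1 0 1 := ⟨_, rfl⟩
      rw [← hb] at hyu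
      have hbE : b ∈ E := by
        rw [hE, ← hyu]
        exact X.mul_mem (X.inv_mem (hgX i)) hx
      refine ⟨(⟨b, hbE⟩, i), Subtype.ext ?_⟩
      rw [hf]
      show g i * uu b = x
      rw [← hyu, mul_inv_cancel_left]
  rw [← Nat.card_congr (Equiv.ofBijective f hbij), Nat.card_prod]

theorem card_Iv_sle (E : Subfield K) : Nat.card (Iv (sle E)) + 1 = Nat.card E ^ 2 := by
  have hfin : Finite (G2 K) := inferInstance
  have h1 : (insert 1 (Iv (sle E))).ncard = (Iv (sle E)).ncard + 1 :=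
    Set.ncard_insert_of_notMem (fun h => h.2.1 rfl) (Set.toFinite _)
  have h2 : insert 1 (Iv (sle E)) = {x : G2 K | x ∈ sle E ∧ tt x = 0} := by
    ext x
    rw [Set.mem_insert_iff, Set.mem_ofPred_eq]
    constructor
    · rintro (rfl | h)
      · exact ⟨(sle E).one_mem, tt_one⟩
      · exact ⟨h.1, h.2.2⟩
    · rintro ⟨h, h'⟩
      by_cases hx : x = 1
      · exact Or.inl hx
      · exact Or.inr ⟨h, hx, h'⟩
  rw [Nat.card_coe_set_eq, ← h1, h2, ← Nat.card_coe_set_eq, sq, ← Nat.card_prod]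
  have hsq : Function.Surjective (fun a : E => a * a) := by
    refine Finite.injective_iff_surjective.1 ?_
    intro a b h
    exact Subtype.ext (sq_inj75 (congrArg Subtype.val h))
  let f : {x : G2 K | x ∈ sle E ∧ tt x = 0} → E × E := fun x => (⟨x.1.1 0 1, x.2.1.2.1⟩, ⟨x.1.1 1 0, x.2.1.2.2.1⟩)
  refine Nat.card_congr (Equiv.ofBijective f ⟨?_, ?_⟩)
  · rintro ⟨x, hx, h0⟩ ⟨y, hy, h0'⟩ h
    have e1 : x.1 0 1 = y.1 0 1 := congrArg (fun p : E × E => (p.1 : K)) h
    have e2 : x.1 1 0 = y.1 1 0 := congrArg (fun p : E × E => (p.2 : K)) h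
    have hxd : x.1 0 0 = x.1 1 1 := eq_of_add_zero h0
    have hyd : y.1 0 0 = y.1 1 1 := eq_of_add_zero h0'
    have d1 := det_one x
    have d2 := det_one y
    rw [← hxd] at d1
    rw [← hyd] at d2
    have e0 : x.1 0 0 = y.1 0 0 := by
      apply sq_inj75
      rw [e1, e2] at d1
      linear_combination d1 - d2
    refine Subtype.ext (g_ext e0 e1 e2 ?_)
    rw [← hxd, ← hyd, e0]
  · rintro ⟨b, c⟩
    obtain ⟨a, ha⟩ := hsq (1 + b * c)
    have ha' : (a : K) * a = 1 + b * c := congrArg Subtype.val ha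
    have hdet : Matrix.det !![(a : K), b; c, a] = 1 := by
      rw [Matrix.det_fin_two]
      simp only [Matrix.of_apply, Matrix.cons_val', Matrix.cons_val_zero, Matrix.cons_val_one, Matrix.cons_val_fin_one]
      linear_combination ha'
    refine ⟨⟨⟨!![(a : K), b; c, a], hdet⟩, ⟨a.2, b.2, c.2, a.2⟩, ?_⟩, ?_⟩
    · exact two_zero (a : K)
    · rfl

end Pool.Agent.H33WL
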