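import Pool.Agent.Helper33.WL.B2

/-!
# Block WL-B3: a counting lemma

* `count_le`. Write `s = (α β; γ α)` (trace zero), `α² + β γ = 1`, `y = (a b; c d)`. In characteristic
  two `tt (s * y) = α (a + d) + β c + γ b`. Put `τ = a + d`.
  Case 1: `β ≠ 0` and `α / β ∉ E`. For given `b` there is at most one `τ ∈ E` such that
  `c = (α τ + γ b) / β ∈ E` (difference of two solutions: `(α/β)(τ - τ') ∈ E`), and then `c` is
  determined. So `y` is determined by `b` and `a`, and `a` is a root of `a² + τ a = 1 + b c`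
  (`a d + b c = 1`, `d = τ + a`), at most two values. Hence at most `2 |E|` matrices `y`.
  Case 2: `β ≠ 0`, `γ / β ∉ E`: the same, for given `τ` there is at most one `b`, and `c` is determined.
  Case 3: `β ≠ 0` and `α / β, γ / β ∈ E`: then `1 = α² + β γ = β² ((α/β)² + γ/β)`, so `β² ∈ E`, so
  `β ∈ E` (finite field of characteristic two: `β = (β²) ^ (|K| / 2)`, or: squaring is a bijection of
  the finite field `E` and injective on `K`), and so `s ∈ sle E`, a contradiction.
  Case 4: `β = 0`: `α² = 1`, `α = 1`, `s = (1 0; γ 1)`, `γ ∉ E` (`s ∉ sle E`). The equation is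
  `τ = γ b` (characteristic two); `b ≠ 0` would give `γ = τ / b ∈ E`; so `b = 0`, `τ = 0`, `a = d`,
  `a² = 1`, `a = 1`, and `y = (1 0; c 1)`: `|E|` matrices.
-/

set_option autoImplicit false
set_option linter.unusedSectionVars false

namespace Pool.Agent.H33WL

variable {K : Type} [Field K] [CharP K 2] [Finite K] {X : Subgroup (G2 K)}

private theorem card_aux56 {A B : Type} [Finite A] [Finite B] (f : A → B) (g : A → A)
    (h : ∀ x y, f x = f y → y = x ∨ y = g x) : Nat.card A ≤ 2 * Nat.card B := by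
  classical
  have fa : Fintype A := Fintype.ofFinite A
  have fb : Fintype B := Fintype.ofFinite B
  rw [Nat.card_eq_fintype_card, Nat.card_eq_fintype_card]
  refine Finset.card_le_mul_card_image_of_maps_to (s := (Finset.univ : Finset A))
    (t := (Finset.univ : Finset B)) (f := f) (fun a _ => Finset.mem_univ _) 2 ?_
  intro b _
  rcases Finset.eq_empty_or_nonempty (Finset.univ.filter fun a => f a = b) with h0 | ⟨x, hx⟩
  · rw [h0]
    simp
  · have hxb : f x = b := (Finset.mem_filter.1 hx).2
    have hsub : (Finset.univ.filter fun a => f a = b) ⊆ {x, g x} := by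
      intro y hy
      have hyb : f y = b := (Finset.mem_filter.1 hy).2
      rw [Finset.mem_insert, Finset.mem_singleton]
      exact h x y (hxb.trans hyb.symm)
    exact (Finset.card_le_card hsub).trans Finset.card_le_two

/-- An element of `SL_2` is determined by its trace and its entries off the diagonal, up to
inversion. -/
private theorem eq_or_inv56 {x y : G2 K} (h1 : x.1 0 1 = y.1 0 1) (h2 : x.1 1 0 = y.1 1 0)
    (h3 : tt x = tt y) : y = x ∨ y = x⁻¹ := by
  have hx := det_one x
  have hy := det_one y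
  simp only [tt] at h3
  have hd : y.1 1 1 = x.1 0 0 + x.1 1 1 + y.1 0 0 := by
    linear_combination -h3 - two_zero (y.1 0 0)
  have hp : (y.1 0 0 + x.1 0 0) * (y.1 0 0 + x.1 1 1) = 0 := by
    rw [hd, ← h1, ← h2] at hy
    linear_combination hx + hy + two_zero (1 : K) - two_zero (x.1 0 1 * x.1 1 0)
  rcases mul_eq_zero.1 hp with h | h
  · left
    have ha : y.1 0 0 = x.1 0 0 := eq_of_add_zero h
    refine g_ext ha h1.symm h2.symm ?_
    rw [hd, ha]
    linear_combination two_zero (x.1 0 0)
  · right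
    have ha : y.1 0 0 = x.1 1 1 := eq_of_add_zero h
    refine g_ext ?_ ?_ ?_ ?_
    · rw [inv00]
      exact ha
    · rw [inv01]
      exact h1.symm
    · rw [inv10]
      exact h2.symm
    · rw [inv11, hd, ha]
      linear_combination two_zero (x.1 1 1)

/-- A square root in `K` of an element of `E` lies in `E`. -/
private theorem sqrt_mem56 (E : Subfield K) {b : K} (hb : b * b ∈ E) : b ∈ E := by
  have hinj : Function.Injective (fun e : E => e * e) := by
    intro e f hef
    have h1 : (e : K) * e = (f : K) * f := congrArg Subtype.val hef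
    have h2 : ((e : K) + f) * ((e : K) + f) = 0 := by
      linear_combination h1 + two_zero ((f : K) * f) + two_zero ((e : K) * f)
    exact Subtype.ext (eq_of_add_zero (mul_self_eq_zero.1 h2))
  obtain ⟨e, he⟩ := (Finite.injective_iff_surjective.1 hinj) ⟨b * b, hb⟩
  have h1 : (e : K) * e = b * b := congrArg Subtype.val he
  have h2 : ((e : K) + b) * ((e : K) + b) = 0 := by
    linear_combination h1 + two_zero (b * b) + two_zero ((e : K) * b)
  rw [← eq_of_add_zero (mul_self_eq_zero.1 h2)]
  exact e.2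

/-- In characteristic two: if `p / q ∉ E`, `x`, `y ∈ E` and `p x + q y = 0`, then
`x = 0` and `y = 0`. -/
private theorem lin56 (E : Subfield K) {p q x y : K} (hq : q ≠ 0) (hpq : p / q ∉ E) (hx : x ∈ E)
    (hy : y ∈ E) (h : p * x + q * y = 0) : x = 0 ∧ y = 0 := by
  have hx0 : x = 0 := by
    by_contra hx0
    apply hpq
    have h1 : p * x = q * y := eq_of_add_zero h
    have h2 : p / q = y / x := by
      rw [div_eq_div_iff hq hx0, h1]
      ring
    rw [h2]
    exact E.div_mem hy hx
  refine ⟨hx0, ?_⟩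
  rw [hx0, mul_zero, zero_add] at h
  exact (mul_eq_zero.1 h).resolve_left hq

theorem count_le (E : Subfield K) {s : G2 K} (hs : tt s = 0) (hsE : s ∉ sle E) :
    Nat.card {y : G2 K // y ∈ sle E ∧ tt (s * y) = 0} ≤ 2 * Nat.card E := by
  have hss : s.1 1 1 = s.1 0 0 := (eq_of_add_zero hs).symm
  have hdet := det_one s
  rw [hss] at hdet
  have htt : ∀ y : G2 K, tt (s * y) = s.1 0 0 * tt y + s.1 0 1 * y.1 1 0 + s.1 1 0 * y.1 0 1 := by
    intro y
    simp only [tt, mul00, mul11, hss]
    ring
  by_cases hb : s.1 0 1 = 0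
  · -- `β = 0`
    rw [hb, zero_mul, add_zero] at hdet
    have ha : s.1 0 0 = 1 := by
      have h1 : (s.1 0 0 + 1) * (s.1 0 0 + 1) = 0 := by
        linear_combination hdet + two_zero (s.1 0 0) + two_zero (1 : K)
      exact eq_of_add_zero (mul_self_eq_zero.1 h1)
    have hg : s.1 1 0 / 1 ∉ E := by
      intro hg
      rw [div_one] at hg
      apply hsE
      rw [mem_sle, hss, ha, hb]
      exact ⟨E.one_mem, E.zero_mem, hg, E.one_mem⟩
    have key : ∀ y : {y : G2 K // y ∈ sle E ∧ tt (s * y) = 0}, y.1.1 0 1 = 0 ∧ tt y.1 = 0 := by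
      rintro ⟨y, hy, hy0⟩
      rw [htt, ha, hb] at hy0
      exact lin56 E one_ne_zero hg hy.2.1 (E.add_mem hy.1 hy.2.2.2)
        (by
          change s.1 1 0 * y.1 0 1 + 1 * tt y = 0
          linear_combination hy0)
    refine card_aux56 (A := {y : G2 K // y ∈ sle E ∧ tt (s * y) = 0}) (B := E)
      (fun y => ⟨y.1.1 1 0, y.2.1.2.2.1⟩) (fun y => y) ?_
    intro x y hxy
    have h1 : x.1.1 1 0 = y.1.1 1 0 := congrArg Subtype.val hxy
    left
    have hx0 := key x
    have hy0 := key y
    have h2 := det_one x.1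
    have h3 := det_one y.1
    have hxa : x.1.1 0 0 = 1 := by
      rw [hx0.1, ← (eq_of_add_zero hx0.2 : x.1.1 0 0 = x.1.1 1 1)] at h2
      have h4 : (x.1.1 0 0 + 1) * (x.1.1 0 0 + 1) = 0 := by
        linear_combination h2 + two_zero (x.1.1 0 0) + two_zero (1 : K)
      exact eq_of_add_zero (mul_self_eq_zero.1 h4)
    have hya : y.1.1 0 0 = 1 := by
      rw [hy0.1, ← (eq_of_add_zero hy0.2 : y.1.1 0 0 = y.1.1 1 1)] at h3
      have h4 : (y.1.1 0 0 + 1) * (y.1.1 0 0 + 1) = 0 := by
        linear_combination h3 + two_zero (y.1.1 0 0) + two_zero (1 : K)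
      exact eq_of_add_zero (mul_self_eq_zero.1 h4)
    apply Subtype.ext
    refine g_ext (hya.trans hxa.symm) (hy0.1.trans hx0.1.symm) h1.symm ?_
    rw [← (eq_of_add_zero hx0.2 : x.1.1 0 0 = x.1.1 1 1),
      ← (eq_of_add_zero hy0.2 : y.1.1 0 0 = y.1.1 1 1)]
    exact hya.trans hxa.symm
  · -- inversion preserves the set
    have hmem : ∀ y : {y : G2 K // y ∈ sle E ∧ tt (s * y) = 0},
        (y.1)⁻¹ ∈ sle E ∧ tt (s * (y.1)⁻¹) = 0 := by
      rintro ⟨y, hy, hy0⟩
      refine ⟨(sle E).inv_mem hy, ?_⟩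
      rw [htt] at hy0 ⊢
      rw [tt_inv, inv10, inv01]
      exact hy0
    by_cases h1 : s.1 0 0 / s.1 0 1 ∈ E
    · by_cases h2 : s.1 1 0 / s.1 0 1 ∈ E
      · exfalso
        apply hsE
        have h3 : s.1 0 1 * s.1 0 1 ∈ E := by
          have h4 : s.1 0 1 * s.1 0 1 =
              ((s.1 0 0 / s.1 0 1) * (s.1 0 0 / s.1 0 1) + s.1 1 0 / s.1 0 1)⁻¹ := by
            apply eq_inv_of_mul_eq_one_left
            field_simp
            linear_combination hdet
          rw [h4]
          exact E.inv_mem (E.add_mem (E.mul_mem h1 h1) h2)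
        have h5 : s.1 0 1 ∈ E := sqrt_mem56 E h3
        have h6 : s.1 0 0 ∈ E := by
          have := E.mul_mem h1 h5
          rwa [div_mul_cancel₀ _ hb] at this
        have h7 : s.1 1 0 ∈ E := by
          have := E.mul_mem h2 h5
          rwa [div_mul_cancel₀ _ hb] at this
        rw [mem_sle, hss]
        exact ⟨h6, h5, h7, h6⟩
      · -- the trace as a parameter
        refine card_aux56 (A := {y : G2 K // y ∈ sle E ∧ tt (s * y) = 0}) (B := E)
          (fun y => ⟨tt y.1, E.add_mem y.2.1.1 y.2.1.2.2.2⟩) (fun y => ⟨(y.1)⁻¹, hmem y⟩) ?_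
        intro x y hxy
        have h3 : tt x.1 = tt y.1 := congrArg Subtype.val hxy
        have hx0 := x.2.2
        have hy0 := y.2.2
        rw [htt] at hx0 hy0
        have h4 := lin56 E hb h2 (E.add_mem x.2.1.2.1 y.2.1.2.1) (E.add_mem x.2.1.2.2.1 y.2.1.2.2.1)
          (by
            rw [h3] at hx0
            linear_combination hx0 + hy0 - two_zero (s.1 0 0 * tt y.1))
        rcases eq_or_inv56 (eq_of_add_zero h4.1) (eq_of_add_zero h4.2) h3 with h | h
        · exact Or.inl (Subtype.ext h)
        · exact Or.inr (Subtype.ext h)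
    · -- the entry `b` as a parameter
      refine card_aux56 (A := {y : G2 K // y ∈ sle E ∧ tt (s * y) = 0}) (B := E)
        (fun y => ⟨y.1.1 0 1, y.2.1.2.1⟩) (fun y => ⟨(y.1)⁻¹, hmem y⟩) ?_
      intro x y hxy
      have h3 : x.1.1 0 1 = y.1.1 0 1 := congrArg Subtype.val hxy
      have hx0 := x.2.2
      have hy0 := y.2.2
      rw [htt] at hx0 hy0
      have h4 := lin56 E hb h1
        (E.add_mem (E.add_mem x.2.1.1 x.2.1.2.2.2) (E.add_mem y.2.1.1 y.2.1.2.2.2))
        (E.add_mem x.2.1.2.2.1 y.2.1.2.2.1)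
        (by
          change s.1 0 0 * (tt x.1 + tt y.1) + s.1 0 1 * (x.1.1 1 0 + y.1.1 1 0) = 0
          rw [h3] at hx0
          linear_combination hx0 + hy0 - two_zero (s.1 1 0 * y.1.1 0 1))
      rcases eq_or_inv56 h3 (eq_of_add_zero h4.2) (eq_of_add_zero h4.1) with h | h
      · exact Or.inl (Subtype.ext h)
      · exact Or.inr (Subtype.ext h)

end Pool.Agent.H33WL
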