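import Pool.Agent.Helper33.WL.B3

/-!
# Block WL-B3b: the case `|E| > 2`

* `big`. `sle E ≤ X` by `mem_of_entries`. Let `n = |X|`, `m = |sle E|`, `e = |E| ≥ 3`, so `e ≥ 4`
  is not needed. By `card_eq` for `X` and for `sle E` (`uu b ∈ sle E ↔ b ∈ E`, `uu 1, ww K ∈ sle E`):
  `n = e |Iv X|`, `m = e |Iv (sle E)|`, `|Iv (sle E)| = e² - 1`.
  Count the pairs `(x, y)` with `x ∈ X`, `x ∉ sle E`, `y ∈ sle E`, `tt (x * y) = 0`.
  (1) For every such `x` there are at most `2 e` such `y`: if there is one, `y₀`, put `s = x * y₀`: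
  `tt s = 0`, `s ∉ sle E`, and `y ↦ y₀⁻¹ * y` maps them into `{y' ∈ sle E | tt (s * y') = 0}`;
  use `count_le`. So there are at most `(n - m) * 2 e` pairs.
  (2) `(x, y) ↦ (x * y, y)` is a bijection onto the pairs `(z, y)`, `z ∈ X`, `z ∉ sle E`, `tt z = 0`,
  `y ∈ sle E`; the number of these `z` is `|Iv X| - |Iv (sle E)|` (`z ≠ 1` because `1 ∈ sle E`). So
  there are exactly `(|Iv X| - |Iv (sle E)|) * m` pairs.
  Multiply by `e`: `(n - m) m ≤ (n - m) * 2 e²`. If `X ≠ sle E` then `n > m`, so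
  `e (e² - 1) = m ≤ 2 e²`, `e² - 1 ≤ 2 e`, which is false for `e ≥ 3`.
-/

set_option autoImplicit false
set_option linter.unusedSectionVars false

namespace Pool.Agent.H33WL

variable {K : Type} [Field K] [CharP K 2] [Finite K] {X : Subgroup (G2 K)}

private theorem finG : Finite (G2 K) := inferInstance

private theorem fib_le {E : Subfield K} {x : G2 K} (hx : x ∉ sle E) :
    Nat.card {y : G2 K // y ∈ sle E ∧ tt (x * y) = 0} ≤ 2 * Nat.card E := by
  classical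
  rcases isEmpty_or_nonempty {y : G2 K // y ∈ sle E ∧ tt (x * y) = 0} with h | ⟨⟨y₀, hy₀, ht₀⟩⟩
  · rw [Nat.card_of_isEmpty]
    exact Nat.zero_le _
  · have hs : x * y₀ ∉ sle E := fun h => hx (by simpa using (sle E).mul_mem h ((sle E).inv_mem hy₀))
    refine le_trans ?_ (count_le E ht₀ hs)
    refine Nat.card_le_card_of_injective
      (fun y : {y : G2 K // y ∈ sle E ∧ tt (x * y) = 0} =>
        (⟨y₀⁻¹ * y.1, (sle E).mul_mem ((sle E).inv_mem hy₀) y.2.1, by
          have : x * y₀ * (y₀⁻¹ * y.1) = x * y.1 := by group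
          rw [this]
          exact y.2.2⟩ : {y : G2 K // y ∈ sle E ∧ tt (x * y₀ * y) = 0})) ?_
    intro y y' h
    have h1 : y₀⁻¹ * y.1 = y₀⁻¹ * y'.1 := congrArg (fun q => q.1) h
    exact Subtype.ext (mul_left_cancel h1)

theorem big (hu : uu (1 : K) ∈ X) (hw : ww K ∈ X) {E : Subfield K}
    (hE : ∀ b : K, b ∈ E ↔ uu b ∈ X) (h2 : 2 < Nat.card E) : X = sle E := by
  classical
  have hle : sle E ≤ X := fun x hx => mem_of_entries hw hE hx
  have hu' : uu (1 : K) ∈ sle E := ⟨E.one_mem, E.one_mem, E.zero_mem, E.one_mem⟩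
  have hw' : ww K ∈ sle E := ⟨E.zero_mem, E.one_mem, E.one_mem, E.zero_mem⟩
  have hE' : ∀ b : K, b ∈ E ↔ uu b ∈ sle E := fun b =>
    ⟨fun h => ⟨E.one_mem, h, E.zero_mem, E.one_mem⟩, fun h => h.2.1⟩
  have c1 := card_eq hu hw hE
  have c2 := card_eq hu' hw' hE'
  have c3 := card_Iv_sle E
  have : Fintype (G2 K) := Fintype.ofFinite _
  -- the complement
  have d1 : Nat.card {x : G2 K // x ∈ X ∧ x ∉ sle E} + Nat.card (sle E) = Nat.card X := by
    have e1 : ((X : Set (G2 K)) \ (sle E : Set (G2 K))).ncard + (sle E : Set (G2 K)).ncard = (X : Set (G2 K)).ncard :=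
      Set.ncard_sdiff_add_ncard_of_subset hle (Set.toFinite _)
    exact e1
  have d2 : Nat.card {x : G2 K // x ∈ X ∧ x ∉ sle E ∧ tt x = 0} + Nat.card (Iv (sle E)) = Nat.card (Iv X) := by
    have hsub : Iv (sle E) ⊆ Iv X := fun x hx => ⟨hle hx.1, hx.2⟩
    have e1 : (Iv X \ Iv (sle E)).ncard + (Iv (sle E)).ncard = (Iv X).ncard :=
      Set.ncard_sdiff_add_ncard_of_subset hsub (Set.toFinite _)
    have e2 : {x : G2 K | x ∈ X ∧ x ∉ sle E ∧ tt x = 0} = Iv X \ Iv (sle E) := by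
      ext x
      constructor
      · rintro ⟨h1, h2, h3⟩
        exact ⟨⟨h1, fun h => h2 (h ▸ (sle E).one_mem), h3⟩, fun h => h2 h.1⟩
      · rintro ⟨⟨h1, h2, h3⟩, h4⟩
        exact ⟨h1, fun h => h4 ⟨h, h2, h3⟩, h3⟩
    rw [← e2] at e1
    exact e1
  -- the pairs
  have p1 : Nat.card (Σ x : {x : G2 K // x ∈ X ∧ x ∉ sle E}, {y : G2 K // y ∈ sle E ∧ tt (x.1 * y) = 0}) ≤
      Nat.card {x : G2 K // x ∈ X ∧ x ∉ sle E} * (2 * Nat.card E) := by
    rw [Nat.card_sigma]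
    refine le_trans (Finset.sum_le_card_nsmul _ _ (2 * Nat.card E) fun x _ => fib_le x.2.2) ?_
    rw [Finset.card_univ, ← Nat.card_eq_fintype_card, smul_eq_mul]
  have p2 : Nat.card ({x : G2 K // x ∈ X ∧ x ∉ sle E ∧ tt x = 0} × sle E) ≤
      Nat.card (Σ x : {x : G2 K // x ∈ X ∧ x ∉ sle E}, {y : G2 K // y ∈ sle E ∧ tt (x.1 * y) = 0}) := by
    refine Nat.card_le_card_of_injective (fun p : {x : G2 K // x ∈ X ∧ x ∉ sle E ∧ tt x = 0} × sle E =>
      (⟨⟨p.1.1 * p.2.1⁻¹, X.mul_mem p.1.2.1 (X.inv_mem (hle p.2.2)),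
        fun h => p.1.2.2.1 (by simpa using (sle E).mul_mem h p.2.2)⟩, ⟨p.2.1, p.2.2, by
          show tt (p.1.1 * p.2.1⁻¹ * p.2.1) = 0
          rw [inv_mul_cancel_right]
          exact p.1.2.2.2⟩⟩ : Σ x : {x : G2 K // x ∈ X ∧ x ∉ sle E}, {y : G2 K // y ∈ sle E ∧ tt (x.1 * y) = 0})) ?_
    intro p q h
    have h1 : (p.2.1 : G2 K) = q.2.1 := congrArg (fun r : Σ x : {x : G2 K // x ∈ X ∧ x ∉ sle E}, {y : G2 K // y ∈ sle E ∧ tt (x.1 * y) = 0} => r.2.1) h
    have h3 : p.1.1 * p.2.1⁻¹ = q.1.1 * q.2.1⁻¹ := congrArg (fun r : Σ x : {x : G2 K // x ∈ X ∧ x ∉ sle E}, {y : G2 K // y ∈ sle E ∧ tt (x.1 * y) = 0} => r.1.1) h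
    rw [h1] at h3
    have h4 := mul_right_cancel h3
    exact Prod.ext (Subtype.ext h4) (Subtype.ext h1)
  rw [Nat.card_prod] at p2
  have p3 := p2.trans p1
  by_contra hne
  have hpos : 0 < Nat.card {x : G2 K // x ∈ X ∧ x ∉ sle E} := by
    obtain ⟨x, hx, hx'⟩ : ∃ x, x ∈ X ∧ x ∉ sle E := by
      by_contra hcon
      push Not at hcon
      exact hne (le_antisymm (fun x hx => hcon x hx) hle)
    have : Nonempty {x : G2 K // x ∈ X ∧ x ∉ sle E} := ⟨⟨x, hx, hx'⟩⟩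
    exact Nat.card_pos
  generalize Nat.card {x : G2 K // x ∈ X ∧ x ∉ sle E} = D at *
  generalize Nat.card {x : G2 K // x ∈ X ∧ x ∉ sle E ∧ tt x = 0} = Z at *
  generalize Nat.card (Iv (sle E)) = I1 at *
  generalize Nat.card (Iv X) = I2 at *
  generalize Nat.card (sle E) = m at *
  generalize Nat.card X = n at *
  generalize Nat.card E = e at *
  -- `D = e Z`
  have hD : D = e * Z := by
    subst c2
    subst c1
    subst d2
    nlinarith
  have hm : m ≤ 2 * e * e := by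
    by_contra hcon
    push Not at hcon
    have h5 : 0 < Z := by
      rcases Nat.eq_zero_or_pos Z with h | h
      · rw [h, mul_zero] at hD
        omega
      · exact h
    have h6 : Z * (2 * e * e) < Z * m := (Nat.mul_lt_mul_left h5).2 hcon
    rw [hD] at p3
    have h7 : Z * m ≤ Z * (2 * e * e) := by
      calc Z * m ≤ e * Z * (2 * e) := p3
        _ = Z * (2 * e * e) := by ring
    omega
  have h8 : I1 = e ^ 2 - 1 := by omega
  rw [c2] at hm
  have h9 : I1 ≤ 2 * e := by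
    have he : 0 < e := by omega
    refine Nat.le_of_mul_le_mul_left ?_ he
    calc e * I1 ≤ 2 * e * e := hm
      _ = e * (2 * e) := by ring
  nlinarith

end Pool.Agent.H33WL
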