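import Pool.Agent.Helper33.WL.B2

/-!
# Block WL-B4: the dihedral case

Let `u = uu 1`, `O = {x ∈ X | x ∉ Iv X}`. The subfield `E` of `exists_fld` is `{0, 1}` (hypothesis `h2`),
so `|E| = 2` and `|X| = 2 |Iv X|` by `card_eq`, hence `|O| = |Iv X|`.
(1) If `s ∈ Iv X` then `u * s ∉ Iv X`: for `s = u` it is `1`. Let `s ≠ u` and `tt (u * s) = 0`; then
`(u s)² = 1` (`sq_one_iff`), so `u` and `s` commute (`u² = s² = 1`), so (entries, as in block B2)
`s = uu b` for some `b`, with `uu b ∈ X`, so `b = 0` or `b = 1`, `s = 1` or `s = u`; contradiction.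
(2) So `s ↦ u * s` is an injection of `Iv X` into `O`, hence a bijection (`|O| = |Iv X|`); therefore
`u * x ∈ Iv X` for every `x ∈ O` (`x = u * s`), so `(u * x)² = 1`, i.e. `u * x * u = x⁻¹`.
(3) For every `s ∈ Iv X` and `x ∈ O`: `s * x * s = x⁻¹`: `s = g * u * g⁻¹` with `g ∈ X` (`conj_u`),
`g⁻¹ * x * g ∈ O` (`tt_conj`), and (2).
(4) Let `c = uu 1 * ww K`: `c ∈ X`, `tt c = 1 ≠ 0`, so `c ∈ O`. For `x ∈ O`: `x = u * s` with `s ∈ Iv X`
by (2), and both `u` and `s` invert `c`, so `x * c * x⁻¹ = c`, so `x ∈ TT K`. For `x ∈ Iv X`: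
`u * x ∈ O` by (1), so `u * x ∈ TT K`.
-/

set_option autoImplicit false
set_option linter.unusedSectionVars false

namespace Pool.Agent.H33WL

variable {K : Type} [Field K] [CharP K 2] [Finite K] {X : Subgroup (G2 K)}

private theorem uu1_sq_h5 : uu (1 : K) * uu 1 = 1 := (sq_one_iff _).2 (tt_uu 1)

private theorem uu1_ne_h5 : uu (1 : K) ≠ 1 := by
  intro h
  have := congrArg (fun x : G2 K => x.1 0 1) h
  simp at this

/-- (1) -/
private theorem step1_h5 (hu : uu (1 : K) ∈ X) (h2 : ∀ b : K, uu b ∈ X → b = 0 ∨ b = 1)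
    {s : G2 K} (hs : s ∈ Iv X) : uu 1 * s ∈ X ∧ uu 1 * s ∉ Iv X := by
  obtain ⟨hsX, hs1, hs0⟩ := hs
  refine ⟨X.mul_mem hu hsX, ?_⟩
  rintro ⟨-, h1, h0⟩
  have hc : uu (1 : K) * s = s * uu 1 := by
    have h3 := inv_eq_self h0
    rw [_root_.mul_inv_rev, inv_eq_self hs0, inv_eq_self (tt_uu 1)] at h3
    exact h3.symm
  have h00 := congrArg (fun y : G2 K => y.1 0 0) hc
  simp only [mul00, uu00, uu01, uu10] at h00
  have hc0 : s.1 1 0 = 0 := by
    have : s.1 0 0 + s.1 1 0 = s.1 0 0 := by linear_combination h00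
    simpa using this
  have hdd : s.1 1 1 = s.1 0 0 := (eq_of_add_zero hs0).symm
  have hd := det_one s
  rw [hdd, hc0, mul_zero, add_zero] at hd
  have ha : s.1 0 0 = 1 := by
    have : (s.1 0 0 + 1) * (s.1 0 0 + 1) = 0 := by
      linear_combination hd + two_zero (s.1 0 0) + two_zero (1 : K)
    exact eq_of_add_zero (mul_self_eq_zero.1 this)
  have hsu : s = uu (s.1 0 1) := by
    apply g_ext
    · rw [ha, uu00]
    · rw [uu01]
    · rw [hc0, uu10]
    · rw [hdd, ha, uu11]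
  rcases h2 (s.1 0 1) (hsu ▸ hsX) with h | h
  · rw [h, uu_zero] at hsu
    exact hs1 hsu
  · rw [h] at hsu
    rw [hsu] at h1
    exact h1 uu1_sq_h5

/-- (2) -/
private theorem step2_h5 (hu : uu (1 : K) ∈ X) (hw : ww K ∈ X)
    (h2 : ∀ b : K, uu b ∈ X → b = 0 ∨ b = 1) {x : G2 K} (hx : x ∈ X) (hxI : x ∉ Iv X) :
    uu 1 * x ∈ Iv X := by
  obtain ⟨E, hE⟩ := exists_fld hu hw
  have hcardE : Nat.card E = 2 := by
    have h3 : (E : Set K) = {0, 1} := by
      ext b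
      constructor
      · intro hb
        rcases h2 b ((hE b).1 hb) with h | h
        · exact Or.inl h
        · exact Or.inr h
      · rintro (rfl | hb)
        · exact E.zero_mem
        · rw [Set.mem_singleton_iff] at hb
          rw [hb]
          exact E.one_mem
    have h4 : Nat.card E = (E : Set K).ncard := rfl
    rw [h4, h3, Set.ncard_pair zero_ne_one]
  have hcard := card_eq hu hw hE
  rw [hcardE] at hcard
  have hfin : ∀ A : Set (G2 K), A.Finite := fun A => Set.toFinite A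
  have hsplit : (X : Set (G2 K)) = Iv X ∪ {x | x ∈ X ∧ x ∉ Iv X} := by
    ext y
    simp only [Set.mem_union, SetLike.mem_coe]
    constructor
    · intro hy
      by_cases h : y ∈ Iv X
      · exact Or.inl h
      · exact Or.inr ⟨hy, h⟩
    · rintro (h | h)
      · exact h.1
      · exact h.1
  have hdis : Disjoint (Iv X) {x | x ∈ X ∧ x ∉ Iv X} := by
    rw [Set.disjoint_left]
    intro y hy hy2
    exact hy2.2 hy
  have hX : Nat.card X = (X : Set (G2 K)).ncard := rfl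
  have hI : Nat.card (Iv X) = (Iv X).ncard := rfl
  have hsum : (X : Set (G2 K)).ncard = (Iv X).ncard + {x | x ∈ X ∧ x ∉ Iv X}.ncard := by
    conv_lhs => rw [hsplit]
    exact Set.ncard_union_eq hdis (hfin _) (hfin _)
  have heq : {x | x ∈ X ∧ x ∉ Iv X}.ncard = (Iv X).ncard := by
    rw [hX, hI] at hcard
    omega
  have himg : (fun s => uu (1 : K) * s) '' (Iv X) = {x | x ∈ X ∧ x ∉ Iv X} := by
    apply Set.eq_of_subset_of_ncard_le
    · rintro _ ⟨s, hs, rfl⟩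
      exact step1_h5 hu h2 hs
    · rw [heq, Set.ncard_image_of_injective _ (mul_right_injective _)]
    · exact hfin _
  have hxm : x ∈ (fun s => uu (1 : K) * s) '' (Iv X) := by
    rw [himg]
    exact ⟨hx, hxI⟩
  obtain ⟨s, hs, rfl⟩ := hxm
  have : uu (1 : K) * (uu 1 * s) = s := by
    rw [← mul_assoc, uu1_sq_h5, one_mul]
  rw [this]
  exact hs

/-- (3) -/
private theorem step3_h5 (hu : uu (1 : K) ∈ X) (hw : ww K ∈ X)
    (h2 : ∀ b : K, uu b ∈ X → b = 0 ∨ b = 1) {s x : G2 K} (hs : s ∈ Iv X) (hx : x ∈ X)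
    (hxI : x ∉ Iv X) : s * x * s = x⁻¹ := by
  obtain ⟨g, hg, rfl⟩ := conj_u hu hw hs.1 hs.2.2 hs.2.1
  have hyX : g⁻¹ * x * g ∈ X := X.mul_mem (X.mul_mem (X.inv_mem hg) hx) hg
  have hyI : g⁻¹ * x * g ∉ Iv X := by
    rintro ⟨-, h1, h0⟩
    apply hxI
    refine ⟨hx, ?_, ?_⟩
    · rintro rfl
      apply h1
      group
    · have h3 := tt_conj x g⁻¹
      rw [inv_inv] at h3
      rw [← h3]
      exact h0
  have h3 := (step2_h5 hu hw h2 hyX hyI).2.2
  have h4 := (sq_one_iff _).2 h3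
  have h5 : uu 1 * (g⁻¹ * x * g) * uu 1 = (g⁻¹ * x * g)⁻¹ := by
    rw [eq_inv_iff_mul_eq_one]
    rw [← h4]
    group
  have h6 : g * uu 1 * g⁻¹ * x * (g * uu 1 * g⁻¹) =
      g * (uu 1 * (g⁻¹ * x * g) * uu 1) * g⁻¹ := by group
  rw [h6, h5]
  group

theorem small (hu : uu (1 : K) ∈ X) (hw : ww K ∈ X) (h2 : ∀ b : K, uu b ∈ X → b = 0 ∨ b = 1)
    {x : G2 K} (hx : x ∈ X) : x ∈ TT K ∨ uu 1 * x ∈ TT K := by
  have hcX : uu (1 : K) * ww K ∈ X := X.mul_mem hu hw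
  have hcI : uu (1 : K) * ww K ∉ Iv X := by
    rintro ⟨-, -, h⟩
    simp [tt] at h
  have huI : uu (1 : K) ∈ Iv X := ⟨hu, uu1_ne_h5, tt_uu 1⟩
  -- (4)
  have h4 : ∀ y ∈ X, y ∉ Iv X → y ∈ TT K := by
    intro y hy hyI
    have hs := step2_h5 hu hw h2 hy hyI
    obtain ⟨s, hsd⟩ : ∃ s, s = uu 1 * y := ⟨_, rfl⟩
    rw [← hsd] at hs
    have hys : y = uu 1 * s := by
      rw [hsd, ← mul_assoc, uu1_sq_h5, one_mul]
    have e1 := step3_h5 hu hw h2 huI hcX hcI
    have e2 := step3_h5 hu hw h2 hs hcX hcI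
    have hs2 : s⁻¹ = s := inv_eq_self hs.2.2
    have hu2 : (uu (1 : K))⁻¹ = uu 1 := inv_eq_self (tt_uu 1)
    have e3 : y * (uu 1 * ww K) * y⁻¹ = uu 1 * ww K := by
      have e4 : y * (uu 1 * ww K) * y⁻¹ = uu 1 * (s * (uu 1 * ww K) * s) * uu 1 := by
        rw [hys, _root_.mul_inv_rev, hs2, hu2]
        simp only [mul_assoc]
      have e5' : ∀ c : G2 K, uu 1 * c⁻¹ * uu (1 : K) = (uu 1 * c * uu 1)⁻¹ := by
        intro c
        rw [_root_.mul_inv_rev (uu 1 * c) (uu 1), _root_.mul_inv_rev (uu 1) c, hu2, mul_assoc]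
      have e5 := e5' (uu 1 * ww K)
      rw [e4, e2, e5, e1, inv_inv]
    unfold TT
    rw [Subgroup.mem_centralizer_iff]
    intro h hh
    rw [Set.mem_singleton_iff] at hh
    rw [hh]
    rw [mul_inv_eq_iff_eq_mul] at e3
    exact e3.symm
  by_cases hxI : x ∈ Iv X
  · right
    obtain ⟨k1, k2⟩ := step1_h5 hu h2 hxI
    exact h4 _ k1 k2
  · left
    exact h4 x hx hxI

end Pool.Agent.H33WL
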