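import Pool.Agent.Helper33.WL.Defs

/-!
# Block WL-B5: the torus

* `mem_TT`: `x` commutes with `uu 1 * ww K = (1 1; 1 0)` iff `x.1 0 1 = x.1 1 0` and
  `x.1 0 0 = x.1 1 1 + x.1 0 1` (compare entries).
* `inv_TT`: `u x u = x⁻¹` for `u = uu 1`, `x ∈ TT K` (entries; `tt x = x.1 0 1` because
  `x.1 0 0 + x.1 1 1 = x.1 0 1` in characteristic two).
* `TT_tt`: if `x ∈ TT K` and `tt x = 0` then `x.1 0 1 = 0`, `x.1 0 0 = x.1 1 1 = 1`.
* `TT_cyclic`. Let `R` be a field extension of `K` with a root `ω` of `ω² + ω + 1 = 0` (for instance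
  `AlgebraicClosure K`). The map `TT K → R`, `x ↦ x.1 1 1 + ω x.1 0 1` (i.e. `d + b c ↦ d + b ω` for
  `x = d 1 + b (1 1; 1 0)`) is multiplicative and injective: if `d + b ω = d' + b' ω` with
  `(b, d) ≠ (b', d')` then `b ≠ b'` and `ω ∈ K` (the image); it is easier to show that the kernel is
  trivial: `d + b ω = 1`, `d² + d b + b² = 1` (determinant `(d + b) d + b b`); put `d = 1 + b ω`:
  `1 + b² ω² + b + b² ω + b² = 1 + b + b² (ω² + ω + 1) = 1 + b`, so `b = 0`, `d = 1`. Use
  `isCyclic_of_subgroup_isDomain`.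
-/

set_option autoImplicit false
set_option linter.unusedSectionVars false

namespace Pool.Agent.H33WL

variable {K : Type} [Field K] [CharP K 2]

theorem mem_TT {x : G2 K} :
    x ∈ TT K ↔ x.1 0 1 = x.1 1 0 ∧ x.1 0 0 = x.1 1 1 + x.1 0 1 := by
  unfold TT
  rw [Subgroup.mem_centralizer_singleton_iff]
  constructor
  · intro h
    have h00 := congrArg (fun y : G2 K => y.1 0 0) h
    have h01 := congrArg (fun y : G2 K => y.1 0 1) h
    simp only [mul00, mul01, mul10, mul11, uu00, uu01, uu10, uu11, ww00, ww01, ww10, ww11]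
      at h00 h01
    constructor
    · linear_combination h00
    · linear_combination h01
  · rintro ⟨h1, h2⟩
    apply g_ext
    · simp only [mul00, mul01, mul10, mul11, uu00, uu01, uu10, uu11, ww00, ww01, ww10, ww11]
      linear_combination h1
    · simp only [mul00, mul01, mul10, mul11, uu00, uu01, uu10, uu11, ww00, ww01, ww10, ww11]
      linear_combination h2
    · simp only [mul00, mul01, mul10, mul11, uu00, uu01, uu10, uu11, ww00, ww01, ww10, ww11]
      linear_combination -h1 - h2
    · simp only [mul00, mul01, mul10, mul11, uu00, uu01, uu10, uu11, ww00, ww01, ww10, ww11]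
      linear_combination -h1

theorem inv_TT {x : G2 K} (hx : x ∈ TT K) : uu 1 * x * uu 1 = x⁻¹ := by
  obtain ⟨h1, h2⟩ := mem_TT.1 hx
  apply g_ext
  · simp only [mul00, mul01, mul10, mul11, uu00, uu01, uu10, uu11, inv00]
    linear_combination h2 + two_zero (x.1 0 1) - h1
  · simp only [mul00, mul01, mul10, mul11, uu00, uu01, uu10, uu11, inv01]
    linear_combination h2 + two_zero (x.1 1 1) + two_zero (x.1 0 1) - h1
  · simp only [mul00, mul01, mul10, mul11, uu00, uu01, uu10, uu11, inv10]
    ring
  · simp only [mul00, mul01, mul10, mul11, uu00, uu01, uu10, uu11, inv11]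
    linear_combination -h1 - h2

theorem TT_tt {x : G2 K} (hx : x ∈ TT K) (h0 : tt x = 0) : x = 1 := by
  obtain ⟨h1, h2⟩ := mem_TT.1 hx
  have hb : x.1 0 1 = 0 := by
    simp only [tt] at h0
    linear_combination h0 - h2 - two_zero (x.1 1 1)
  have hd := det_one x
  rw [h2, hb] at hd
  have hd1 : x.1 1 1 = 1 := by
    have : (x.1 1 1 + 1) * (x.1 1 1 + 1) = 0 := by
      linear_combination hd + two_zero (x.1 1 1) + two_zero (1 : K)
    exact eq_of_add_zero (mul_self_eq_zero.1 this)
  apply g_ext
  · rw [h2, hb, hd1, one00, add_zero]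
  · rw [hb, one01]
  · rw [← h1, hb, one10]
  · rw [hd1, one11]

theorem TT_cyclic [Finite K] : IsCyclic (TT K) := by
  let R := AlgebraicClosure K
  obtain ⟨w, hw⟩ : ∃ w : R, w * w + w + 1 = 0 := by
    have hdeg : ((Polynomial.X * Polynomial.X + Polynomial.X + 1 : Polynomial R)).degree ≠ 0 := by
      have : (Polynomial.X * Polynomial.X + Polynomial.X + 1 : Polynomial R).degree = 2 := by
        compute_degree!
      rw [this]
      norm_num
    obtain ⟨w, hw⟩ := IsAlgClosed.exists_root _ hdeg
    refine ⟨w, ?_⟩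
    simpa [Polynomial.IsRoot] using hw
  have hR : CharP R 2 := charP_of_injective_algebraMap (algebraMap K R).injective 2
  have h2R : ∀ a : R, a + a = 0 := fun a => CharTwo.add_self_eq_zero a
  let f : TT K →* R :=
    { toFun := fun x => algebraMap K R (x.1.1 1 1) + w * algebraMap K R (x.1.1 0 1)
      map_one' := by
        have e1 : ((1 : TT K) : G2 K).1 1 1 = 1 := one11
        have e2 : ((1 : TT K) : G2 K).1 0 1 = 0 := one01
        rw [e1, e2, map_one, map_zero, mul_zero, add_zero]
      map_mul' := by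
        intro x y
        obtain ⟨h1, h2⟩ := mem_TT.1 x.2
        obtain ⟨h3, h4⟩ := mem_TT.1 y.2
        have e1 : ((x * y : TT K) : G2 K).1 1 1 = x.1.1 0 1 * y.1.1 0 1 + x.1.1 1 1 * y.1.1 1 1 := by
          rw [Subgroup.coe_mul, mul11, ← h1]
        have e2 : ((x * y : TT K) : G2 K).1 0 1 =
            (x.1.1 1 1 + x.1.1 0 1) * y.1.1 0 1 + x.1.1 0 1 * y.1.1 1 1 := by
          rw [Subgroup.coe_mul, mul01, h2]
        rw [e1, e2]
        simp only [map_add, map_mul]
        linear_combination (-(algebraMap K R (x.1.1 0 1) * algebraMap K R (y.1.1 0 1))) * hw +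
          h2R (algebraMap K R (x.1.1 0 1) * algebraMap K R (y.1.1 0 1)) +
          w * h2R (algebraMap K R (x.1.1 0 1) * algebraMap K R (y.1.1 0 1)) }
  have hf : Function.Injective f := by
    rw [injective_iff_map_eq_one]
    intro x hx
    have hx' : algebraMap K R (x.1.1 1 1) + w * algebraMap K R (x.1.1 0 1) = 1 := hx
    obtain ⟨h1, h2⟩ := mem_TT.1 x.2
    have hd := det_one x.1
    rw [h2, ← h1] at hd
    have hd' := congrArg (algebraMap K R) hd
    simp only [map_add, map_mul, map_one] at hd'
    have hD : algebraMap K R (x.1.1 1 1) = 1 - w * algebraMap K R (x.1.1 0 1) := by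
      linear_combination hx'
    rw [hD] at hd'
    have hb : algebraMap K R (x.1.1 0 1) = 0 := by
      linear_combination hd' - algebraMap K R (x.1.1 0 1) * algebraMap K R (x.1.1 0 1) * hw +
        w * h2R (algebraMap K R (x.1.1 0 1)) +
        w * h2R (algebraMap K R (x.1.1 0 1) * algebraMap K R (x.1.1 0 1))
    have hb0 : x.1.1 0 1 = 0 := by
      rw [← map_zero (algebraMap K R)] at hb
      exact (algebraMap K R).injective hb
    have ht : tt x.1 = 0 := by
      simp only [tt]
      rw [h2, hb0, add_zero]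
      exact two_zero _
    exact Subtype.ext (TT_tt x.2 ht)
  exact isCyclic_of_subgroup_isDomain f hf

end Pool.Agent.H33WL
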