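import Pool.Agent.Helper33.WL.B5

/-!
# Block WL-B5b: the order of the torus

* `card_TT`. Let `q = |E| = 2^d`. `TT K ⊓ sle E` is in bijection with
  `{(b, d') ∈ E × E | d'² + d' b + b² = 1}`. `N(b, d') = d'² + d' b + b²` is homogeneous of degree two
  and `λ ↦ λ²` is a bijection of `E`, so `(λ, (b, d')) ↦ (λ b, λ d')` is a bijection from
  `Eˣ × {N = 1}` to `{N ≠ 0}`. If `d` is odd, `E` has no element of order three (`3 ∤ 2^d - 1`), so
  `N(b, d') = 0` only for `b = d' = 0` (for `b ≠ 0`, `d'/b` would be a root of `X² + X + 1`, hence an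
  element of order three): `|{N ≠ 0}| = q² - 1`, so `|{N = 1}| = q + 1`. If `d` is even, `E` contains an
  element `ω` of order three (`3 ∣ 2^d - 1`, the unit group is cyclic, or Cauchy), and
  `N(b, d') = (d' + ω b) (d' + ω² b)`: `(b, d') ↦ (d' + ω b, d' + ω² b)` is a bijection of `E × E`, so
  `{N = 1}` is in bijection with `{(p, r) | p r = 1}`, of size `q - 1`.
-/

set_option autoImplicit false
set_option linter.unusedSectionVars false

namespace Pool.Agent.H33WL

section

variable {F : Type} [Field F] [Finite F] [CharP F 2]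

private abbrev S38 (F : Type) [Field F] : Type := {p : F × F // p.2 * p.2 + p.2 * p.1 + p.1 * p.1 = 1}

private theorem sqrt38 (y : F) : ∃ x : F, x * x = y := by
  have hinj : Function.Injective fun x : F => x * x := by
    intro x z h
    have h' : x * x = z * z := h
    have h1 : (x + z) * (x + z) = 0 := by
      linear_combination h' + two_zero (z * z) + two_zero (x * z)
    exact eq_of_add_zero (mul_self_eq_zero.1 h1)
  exact Finite.injective_iff_surjective.1 hinj y

private theorem even38 {w : F} (hw : w * w + w + 1 = 0) : Nat.card (S38 F) = Nat.card F - 1 := by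
  have h2 : ∀ a : F, a + a = 0 := two_zero
  have e : S38 F ≃ Fˣ :=
    { toFun := fun p =>
        { val := p.1.2 + w * p.1.1
          inv := p.1.2 + w * w * p.1.1
          val_inv := by
            have hp := p.2
            linear_combination hp + (p.1.1 * p.1.1 * (w - 1) + p.1.1 * p.1.2) * hw -
              h2 (p.1.1 * p.1.2)
          inv_val := by
            have hp := p.2
            linear_combination hp + (p.1.1 * p.1.1 * (w - 1) + p.1.1 * p.1.2) * hw -
              h2 (p.1.1 * p.1.2) }
      invFun := fun u => ⟨((u : F) + ((u⁻¹ : Fˣ) : F), w * w * (u : F) + w * ((u⁻¹ : Fˣ) : F)), by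
        have hu : (u : F) * ((u⁻¹ : Fˣ) : F) = 1 := Units.mul_inv u
        simp only
        linear_combination ((u : F) ^ 2 * (w * w - w + 1) + ((u⁻¹ : Fˣ) : F) ^ 2 +
          (u : F) * ((u⁻¹ : Fˣ) : F)) * hw + hu + w ^ 3 * h2 ((u : F) * ((u⁻¹ : Fˣ) : F))⟩
      left_inv := by
        rintro ⟨⟨b, c⟩, hp⟩
        apply Subtype.ext
        apply Prod.ext
        · change (c + w * b) + (c + w * w * b) = b
          linear_combination h2 c + b * hw - h2 b
        · change w * w * (c + w * b) + w * (c + w * w * b) = c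
          linear_combination c * hw - h2 c + w ^ 3 * h2 b
      right_inv := by
        intro u
        apply Units.ext
        change (w * w * (u : F) + w * ((u⁻¹ : Fˣ) : F)) + w * ((u : F) + ((u⁻¹ : Fˣ) : F)) = u
        linear_combination (u : F) * hw - h2 (u : F) + w * h2 ((u⁻¹ : Fˣ) : F) }
  rw [Nat.card_congr e, Nat.card_units]

private theorem odd38 (hw : ∀ w : F, w * w + w + 1 ≠ 0) : Nat.card (S38 F) = Nat.card F + 1 := by
  classical
  have : Fintype F := Fintype.ofFinite F
  have hN : ∀ b c : F, c * c + c * b + b * b = 0 → b = 0 ∧ c = 0 := by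
    intro b c h
    by_cases hb : b = 0
    · subst hb
      refine ⟨rfl, ?_⟩
      have : c * c = 0 := by linear_combination h
      exact mul_self_eq_zero.1 this
    · exfalso
      apply hw (c / b)
      field_simp
      linear_combination h
  let Φ : Fˣ × S38 F → {p : F × F // p ≠ 0} := fun x =>
    ⟨((x.1 : F) * x.2.1.1, (x.1 : F) * x.2.1.2), by
      intro h
      have h1 : (x.1 : F) * x.2.1.1 = 0 := congrArg Prod.fst h
      have h2 : (x.1 : F) * x.2.1.2 = 0 := congrArg Prod.snd h
      have h3 := (mul_eq_zero.1 h1).resolve_left x.1.ne_zero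
      have h4 := (mul_eq_zero.1 h2).resolve_left x.1.ne_zero
      have h5 := x.2.2
      rw [h3, h4] at h5
      simp at h5⟩
  have hΦ : Function.Bijective Φ := by
    constructor
    · rintro ⟨l, ⟨⟨b, c⟩, hp⟩⟩ ⟨l', ⟨⟨b', c'⟩, hp'⟩⟩ h
      have h0 := congrArg Subtype.val h
      have h1 : (l : F) * b = l' * b' := congrArg Prod.fst h0
      have h2 : (l : F) * c = l' * c' := congrArg Prod.snd h0
      simp only at hp hp'
      have h3 : (l : F) * l = l' * l' := by
        calc (l : F) * l = (l : F) * l * (c * c + c * b + b * b) := by rw [hp, mul_one]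
          _ = (l * c) * (l * c) + (l * c) * (l * b) + (l * b) * (l * b) := by ring
          _ = (l' : F) * l' * (c' * c' + c' * b' + b' * b') := by rw [h1, h2]; ring
          _ = l' * l' := by rw [hp', mul_one]
      have h4 : ((l : F) + l') * (l + l') = 0 := by
        linear_combination h3 + two_zero ((l' : F) * l') + two_zero ((l : F) * l')
      have h5 : (l : F) = l' := eq_of_add_zero (mul_self_eq_zero.1 h4)
      have h6 : l = l' := Units.ext h5
      subst h6
      have h7 := mul_left_cancel₀ l.ne_zero h1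
      have h8 := mul_left_cancel₀ l.ne_zero h2
      subst h7
      subst h8
      rfl
    · rintro ⟨⟨b, c⟩, hbc⟩
      obtain ⟨l, hl⟩ := sqrt38 (c * c + c * b + b * b)
      have hl0 : l ≠ 0 := by
        intro h0
        rw [h0, mul_zero] at hl
        obtain ⟨h1, h2⟩ := hN b c hl.symm
        apply hbc
        rw [h1, h2]
        rfl
      refine ⟨(Units.mk0 l hl0, ⟨(b / l, c / l), ?_⟩), ?_⟩
      · simp only
        field_simp
        linear_combination -hl
      · apply Subtype.ext
        apply Prod.ext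
        · change l * (b / l) = b
          field_simp
        · change l * (c / l) = c
          field_simp
  have h1 := Nat.card_congr (Equiv.ofBijective Φ hΦ)
  rw [Nat.card_prod, Nat.card_units] at h1
  have h2 : Nat.card {p : F × F // p ≠ 0} = Nat.card F * Nat.card F - 1 := by
    rw [Nat.card_eq_fintype_card, Fintype.card_subtype, Finset.filter_ne', Finset.card_erase_of_mem
      (Finset.mem_univ _), Finset.card_univ, Fintype.card_prod, Nat.card_eq_fintype_card]
  rw [h2] at h1
  have h3 : 1 < Nat.card F := Finite.one_lt_card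
  obtain ⟨m, hm⟩ : ∃ m, Nat.card F = m + 2 := ⟨Nat.card F - 2, by omega⟩
  rw [hm] at h1 ⊢
  have h4 : (m + 2) * (m + 2) - 1 = (m + 1) * (m + 3) := by
    have : (m + 2) * (m + 2) = (m + 1) * (m + 3) + 1 := by ring
    omega
  have h5 : m + 2 - 1 = m + 1 := by omega
  rw [h4, h5] at h1
  exact Nat.eq_of_mul_eq_mul_left (by omega) h1

private theorem card38 {d : ℕ} (hd : Nat.card F = 2 ^ d) : Nat.card (S38 F) = tor d := by
  have h1 : 1 < Nat.card F := Finite.one_lt_card
  have hcube : ∀ w : F, w * w + w + 1 = 0 → w ^ 3 = 1 ∧ w ≠ 1 := by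
    intro w hw
    constructor
    · linear_combination (w - 1) * hw
    · rintro rfl
      have h : (1 : F) = 0 := by linear_combination hw - two_zero (1 : F)
      exact one_ne_zero h
  unfold tor
  split_ifs with hev
  · obtain ⟨k, hk⟩ := hev
    have hdvd : 3 ∣ Nat.card Fˣ := by
      rw [Nat.card_units, hd, hk, ← two_mul, pow_mul]
      have : (2 ^ 2) ^ k % 3 = 1 := by
        rw [Nat.pow_mod]
        simp
      omega
    have : Fact (Nat.Prime 3) := ⟨Nat.prime_three⟩
    obtain ⟨x, hx⟩ := exists_prime_orderOf_dvd_card' 3 hdvd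
    have hx3 : (x : F) ^ 3 = 1 := by
      rw [← Units.val_pow_eq_pow_val, ← hx, pow_orderOf_eq_one]
      rfl
    have hx1 : (x : F) ≠ 1 := by
      intro h
      have : x = 1 := Units.ext h
      rw [this, orderOf_one] at hx
      omega
    have hw : (x : F) * x + x + 1 = 0 := by
      have h : ((x : F) - 1) * (x * x + x + 1) = 0 := by linear_combination hx3
      exact (mul_eq_zero.1 h).resolve_left (sub_ne_zero.2 hx1)
    rw [even38 hw, hd]
  · rw [odd38, hd]
    intro w hw
    obtain ⟨h3, h4⟩ := hcube w hw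
    have hw0 : w ≠ 0 := by
      rintro rfl
      simp at h3
    have h5 : w ^ (Nat.card F - 1) = 1 := by
      have := pow_card_eq_one' (x := Units.mk0 w hw0)
      rw [Nat.card_units] at this
      have h6 := congrArg (fun u : Fˣ => (u : F)) this
      simpa using h6
    obtain ⟨k, hk⟩ := Nat.not_even_iff_odd.1 hev
    have h7 : ∃ j, Nat.card F - 1 = 3 * j + 1 := by
      rw [hd, hk, pow_succ, pow_mul]
      have : (2 ^ 2) ^ k % 3 = 1 := by
        rw [Nat.pow_mod]
        simp
      refine ⟨((2 ^ 2) ^ k * 2 - 1) / 3, ?_⟩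
      omega
    obtain ⟨j, hj⟩ := h7
    rw [hj, pow_succ, pow_mul, h3, one_pow, one_mul] at h5
    exact h4 h5

end

variable {K : Type} [Field K] [CharP K 2]

theorem card_TT [Finite K] (E : Subfield K) {d : ℕ} (hd : Nat.card E = 2 ^ d) :
    Nat.card (TT K ⊓ sle E : Subgroup (G2 K)) = tor d := by
  have : CharP E 2 := RingHom.charP E.subtype Subtype.val_injective 2
  rw [← card38 (F := E) hd]
  refine Nat.card_congr
    { toFun := fun x => ⟨(⟨x.1.1 0 1, (mem_sle.1 x.2.2).2.1⟩, ⟨x.1.1 1 1, (mem_sle.1 x.2.2).2.2.2⟩), ?_⟩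
      invFun := fun p => ⟨⟨!![(p.1.2 : K) + p.1.1, (p.1.1 : K); (p.1.1 : K), (p.1.2 : K)], ?_⟩, ?_, ?_⟩
      left_inv := ?_
      right_inv := ?_ }
  · obtain ⟨h1, h2⟩ := mem_TT.1 x.2.1
    have h3 := det_one x.1
    apply Subtype.ext
    change x.1.1 1 1 * x.1.1 1 1 + x.1.1 1 1 * x.1.1 0 1 + x.1.1 0 1 * x.1.1 0 1 = 1
    rw [← h1, h2] at h3
    linear_combination h3
  · rw [Matrix.det_fin_two_of]
    have h := congrArg (fun y : E => (y : K)) p.2
    simp only [Subfield.coe_add, Subfield.coe_mul, Subfield.coe_one] at h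
    linear_combination h - two_zero ((p.1.1 : K) * p.1.1)
  · exact mem_TT.2 ⟨rfl, rfl⟩
  · exact ⟨E.add_mem p.1.2.2 p.1.1.2, p.1.1.2, p.1.1.2, p.1.2.2⟩
  · rintro ⟨x, hx1, hx2⟩
    obtain ⟨h1, h2⟩ := mem_TT.1 hx1
    apply Subtype.ext
    apply g_ext
    · exact h2.symm
    · rfl
    · exact h1
    · rfl
  · rintro ⟨⟨b, c⟩, hp⟩
    rfl

end Pool.Agent.H33WL
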