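import Pool.Agent.Helper33.WL.Defs

/-!
# Block WL-B6: subfields of a finite field, subgroups of a finite cyclic group

`K` is a field with `2^n` elements, `n ≥ 1`.

* `sub_card`: the cardinality of a subfield `E` is `2^d` with `d ∣ n` (`K` is a vector space over `E`,
  `|K| = |E|^r`; `E` has characteristic two so `|E| = 2^d`, `2^n = 2^(d r)`).
* `sub_exists`: for `d ∣ n`, `d ≥ 1`, `{x | x^(2^d) = x}` is a subfield with `2^d` elements (`x^(2^d - 1) = 1`
  has exactly `2^d - 1` solutions in the cyclic group `Kˣ` of order `2^n - 1`, because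
  `2^d - 1 ∣ 2^n - 1`; or via `X^(2^d) - X ∣ X^(2^n) - X`).
* `sub_le`: `E ≤ E'` iff `d ∣ d'`: every subfield `E` with `2^d` elements is `{x | x^(2^d) = x}`
  (`FiniteField.pow_card` and at most `2^d` roots), and `x^(2^d) = x` implies `x^(2^(d r)) = x`;
  conversely `E'` is a vector space over `E`.
* `cyc_le`: in a finite cyclic group `A` subgroups are determined by their orders and `H ≤ H'` iff
  `|H| ∣ |H'|`.
* `cyc_exists`: for every divisor `m` of `|A|` there is a subgroup of order `m`.
(For the last two: `IsCyclic.card_pow_eq_one_le` (at most `m` elements with `x^m = 1`), and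
`g^(|A|/m)` has order `m` for a generator `g`.)
-/

set_option autoImplicit false
set_option linter.unusedSectionVars false

namespace Pool.Agent.H33WL

section

variable {A : Type} [Group A] [Finite A] [IsCyclic A]

private theorem mem_of_pow27 {H : Subgroup A} {a : A} (ha : a ^ Nat.card H = 1) : a ∈ H := by
  classical
  have := Fintype.ofFinite A
  have hpos : 0 < Nat.card H := Nat.card_pos
  have h1 := IsCyclic.card_pow_eq_one_le (α := A) hpos
  have hsub : (Finset.univ.filter (fun x : A => x ∈ H)) ⊆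
      Finset.univ.filter (fun x : A => x ^ Nat.card H = 1) := by
    intro x hx
    rw [Finset.mem_filter] at hx ⊢
    refine ⟨Finset.mem_univ _, ?_⟩
    have h3 : (⟨x, hx.2⟩ : H) ^ Nat.card H = 1 := pow_card_eq_one'
    exact congrArg Subtype.val h3
  have hcard : (Finset.univ.filter (fun x : A => x ∈ H)).card = Nat.card H := by
    rw [Nat.card_eq_fintype_card, Fintype.card_subtype]
  have heq := Finset.eq_of_subset_of_card_le hsub (by rw [hcard]; exact h1)
  have h2 : a ∈ Finset.univ.filter (fun x : A => x ^ Nat.card H = 1) :=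
    Finset.mem_filter.2 ⟨Finset.mem_univ _, ha⟩
  rw [← heq, Finset.mem_filter] at h2
  exact h2.2

private theorem cyc_exists27 {m : ℕ} (hm : m ∣ Nat.card A) : ∃ H : Subgroup A, Nat.card H = m := by
  obtain ⟨g, hg⟩ := IsCyclic.exists_ofOrder_eq_natCard (α := A)
  refine ⟨Subgroup.zpowers (g ^ (orderOf g / m)), ?_⟩
  rw [Nat.card_zpowers, orderOf_pow_orderOf_div]
  · rw [hg]
    exact Nat.card_pos.ne'
  · rw [hg]
    exact hm

end

section

variable {K : Type} [Field K] [CharP K 2] [Finite K] {n : ℕ}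

private noncomputable def Fx27 (K : Type) [Field K] [CharP K 2] (d : ℕ) : Subfield K :=
  (iterateFrobenius K 2 d).eqLocusField (RingHom.id K)

private theorem mem_Fx27 {d : ℕ} {x : K} : x ∈ Fx27 K d ↔ x ^ 2 ^ d = x := by
  rw [Fx27, RingHom.mem_eqLocusField, iterateFrobenius_def]
  rfl

private theorem card_Fx27 {d : ℕ} (hd : 0 < d) : Nat.card (Fx27 K d) ≤ 2 ^ d := by
  obtain ⟨g, hg⟩ := IsCyclic.exists_ofOrder_eq_natCard (α := (Fx27 K d)ˣ)
  have h2 : 2 ≤ 2 ^ d := by
    calc 2 = 2 ^ 1 := rfl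
      _ ≤ 2 ^ d := Nat.pow_le_pow_right (by norm_num) hd
  have h1 : g ^ (2 ^ d - 1) = 1 := by
    have h3 : g ^ 2 ^ d = g := by
      apply Units.ext
      apply Subtype.ext
      have := mem_Fx27.1 ((g : Fx27 K d) : Fx27 K d).2
      rw [Units.val_pow_eq_pow_val]
      exact this
    have h4 : g ^ (2 ^ d - 1) * g = 1 * g := by
      rw [← pow_succ, Nat.sub_add_cancel (by omega), h3, one_mul]
    exact mul_right_cancel h4
  have h5 := orderOf_dvd_of_pow_eq_one h1
  rw [hg, Nat.card_units] at h5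
  have h6 := Nat.le_of_dvd (by omega) h5
  omega

private theorem le_Fx27 {E : Subfield K} {d : ℕ} (hd : Nat.card E = 2 ^ d) : E ≤ Fx27 K d := by
  intro x hx
  rw [mem_Fx27]
  have := Fintype.ofFinite E
  have h := FiniteField.pow_card (⟨x, hx⟩ : E)
  rw [← Nat.card_eq_fintype_card, hd] at h
  exact congrArg Subtype.val h

private theorem pos_of_card27 {E : Subfield K} {d : ℕ} (hd : Nat.card E = 2 ^ d) : 0 < d := by
  have h3 : 1 < Nat.card E := Finite.one_lt_card
  rcases Nat.eq_zero_or_pos d with h0 | h0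
  · rw [h0, pow_zero] at hd
    omega
  · exact h0

private theorem eq_Fx27 {E : Subfield K} {d : ℕ} (hd : Nat.card E = 2 ^ d) : E = Fx27 K d := by
  apply SetLike.coe_injective
  refine Set.eq_of_subset_of_ncard_le (le_Fx27 hd) ?_ (Set.toFinite _)
  have h1 := card_Fx27 (K := K) (pos_of_card27 hd)
  rw [← hd] at h1
  exact h1

end

section

variable {K : Type} [Field K] [CharP K 2] [Finite K] {n : ℕ}

theorem sub_card (hn : Nat.card K = 2 ^ n) (E : Subfield K) :
    ∃ d, d ∣ n ∧ 0 < d ∧ Nat.card E = 2 ^ d := by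
  have h1 : Nat.card K = Nat.card E ^ Module.finrank E K := Module.natCard_eq_pow_finrank
  have hr : 0 < Module.finrank E K := Module.finrank_pos
  have h2 : Nat.card E ∣ 2 ^ n := by
    rw [← hn, h1]
    exact dvd_pow_self _ hr.ne'
  obtain ⟨d, hdn, hd⟩ := (Nat.dvd_prime_pow Nat.prime_two).1 h2
  refine ⟨d, ⟨Module.finrank E K, ?_⟩, pos_of_card27 hd, hd⟩
  have h3 : 2 ^ n = 2 ^ (d * Module.finrank E K) := by rw [pow_mul, ← hd, ← h1, hn]
  exact Nat.pow_right_injective le_rfl h3

theorem sub_exists (hn : Nat.card K = 2 ^ n) {d : ℕ} (hd : d ∣ n) :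
    ∃ E : Subfield K, Nat.card E = 2 ^ d := by
  have hn0 : n ≠ 0 := by
    intro h0
    have h1 : 1 < Nat.card K := Finite.one_lt_card
    rw [hn, h0, pow_zero] at h1
    omega
  have hd0 : 0 < d := Nat.pos_of_dvd_of_pos hd (Nat.pos_of_ne_zero hn0)
  have h2 : 2 ≤ 2 ^ d := by
    calc 2 = 2 ^ 1 := rfl
      _ ≤ 2 ^ d := Nat.pow_le_pow_right (by norm_num) hd0
  obtain ⟨H, hH⟩ := cyc_exists27 (A := Kˣ) (m := 2 ^ d - 1) (by
    rw [Nat.card_units, hn]
    obtain ⟨r, rfl⟩ := hd
    rw [pow_mul]
    exact Nat.sub_one_dvd_pow_sub_one _ _)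
  refine ⟨Fx27 K d, le_antisymm (card_Fx27 hd0) ?_⟩
  have hmem : ∀ h : H, (((h : Kˣ) : K)) ∈ Fx27 K d := by
    intro h
    rw [mem_Fx27]
    have h3 := pow_card_eq_one' (x := h)
    rw [hH] at h3
    have h4 : (h : Kˣ) ^ (2 ^ d - 1) = 1 := by simpa using congrArg Subtype.val h3
    have h5 : (h : Kˣ) ^ 2 ^ d = (h : Kˣ) := by
      have h6 : (h : Kˣ) ^ (2 ^ d - 1 + 1) = (h : Kˣ) := by rw [pow_succ, h4, one_mul]
      rwa [Nat.sub_add_cancel (by omega)] at h6
    have h7 := congrArg Units.val h5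
    rwa [Units.val_pow_eq_pow_val] at h7
  let f : Option H → Fx27 K d := fun o => o.elim 0 (fun h => ⟨((h : Kˣ) : K), hmem h⟩)
  have hf : Function.Injective f := by
    intro a b hab
    cases a with
    | none =>
      cases b with
      | none => rfl
      | some b => exact absurd (congrArg Subtype.val hab).symm (Units.ne_zero _)
    | some a =>
      cases b with
      | none => exact absurd (congrArg Subtype.val hab) (Units.ne_zero _)
      | some b =>
        have h8 : ((a : Kˣ) : K) = ((b : Kˣ) : K) := congrArg Subtype.val hab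
        rw [Subtype.ext (Units.ext h8)]
  have h9 := Nat.card_le_card_of_injective f hf
  rw [Finite.card_option, hH] at h9
  omega

theorem sub_le {E E' : Subfield K} {d d' : ℕ} (hd : Nat.card E = 2 ^ d)
    (hd' : Nat.card E' = 2 ^ d') : E ≤ E' ↔ d ∣ d' := by
  constructor
  · intro hle
    let _ : Algebra E E' := (Subfield.inclusion hle).toAlgebra
    have h1 : Nat.card E' = Nat.card E ^ Module.finrank E E' := Module.natCard_eq_pow_finrank
    refine ⟨Module.finrank E E', ?_⟩
    have h3 : 2 ^ d' = 2 ^ (d * Module.finrank E E') := by rw [pow_mul, ← hd, ← h1, hd']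
    exact Nat.pow_right_injective le_rfl h3
  · rintro ⟨r, rfl⟩
    intro x hx
    have h1 := mem_Fx27.1 (le_Fx27 hd hx)
    rw [eq_Fx27 hd', mem_Fx27]
    have h2 : ∀ r : ℕ, x ^ 2 ^ (d * r) = x := by
      intro r
      induction r with
      | zero => simp
      | succ r ih => rw [Nat.mul_succ, pow_add, pow_mul, ih, h1]
    exact h2 r

end

section

variable {A : Type} [Group A] [Finite A] [IsCyclic A]

theorem cyc_le (H H' : Subgroup A) : H ≤ H' ↔ Nat.card H ∣ Nat.card H' := by
  refine ⟨fun h => Subgroup.card_dvd_of_le h, fun h a ha => mem_of_pow27 ?_⟩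
  have h1 : (⟨a, ha⟩ : H) ^ Nat.card H = 1 := pow_card_eq_one'
  have h2 : a ^ Nat.card H = 1 := congrArg Subtype.val h1
  obtain ⟨c, hc⟩ := h
  rw [hc, pow_mul, h2, one_pow]

theorem cyc_exists {m : ℕ} (hm : m ∣ Nat.card A) : ∃ H : Subgroup A, Nat.card H = m := by
  exact cyc_exists27 hm

end

end Pool.Agent.H33WL
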