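import Mathlib

/-!
# Overgroups of `SL_2(2)` in `SL_2(K)`, `K` a finite field of characteristic two

Basic computations with `2 x 2` matrices of determinant one in characteristic two.
-/

set_option autoImplicit false
set_option linter.unusedSectionVars false

namespace Pool.Agent.H33WL

open Matrix

/-- `SL_2(K)`. -/
abbrev G2 (K : Type) [Field K] : Type := Matrix.SpecialLinearGroup (Fin 2) K

section

variable {K : Type} [Field K] [CharP K 2]

/-- The transvection `(1 b; 0 1)`. -/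
def uu (b : K) : G2 K := ⟨!![1, b; 0, 1], by simp [Matrix.det_fin_two]⟩

/-- The matrix `(0 1; 1 0)`. -/
def ww (K : Type) [Field K] [CharP K 2] : G2 K :=
  ⟨!![0, 1; 1, 0], by simp [Matrix.det_fin_two, CharTwo.neg_eq]⟩

/-- The trace. -/
def tt (x : G2 K) : K := x.1 0 0 + x.1 1 1

theorem g_ext {x y : G2 K} (h00 : x.1 0 0 = y.1 0 0) (h01 : x.1 0 1 = y.1 0 1)
    (h10 : x.1 1 0 = y.1 1 0) (h11 : x.1 1 1 = y.1 1 1) : x = y := by
  apply Subtype.ext
  ext i j
  fin_cases i <;> fin_cases j <;> assumption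

theorem det_one (x : G2 K) : x.1 0 0 * x.1 1 1 + x.1 0 1 * x.1 1 0 = 1 := by
  have h := x.2
  rw [Matrix.det_fin_two, CharTwo.sub_eq_add] at h
  exact h

@[simp] theorem mul00 (x y : G2 K) :
    (x * y).1 0 0 = x.1 0 0 * y.1 0 0 + x.1 0 1 * y.1 1 0 := by
  simp [Matrix.mul_apply, Fin.sum_univ_two]

@[simp] theorem mul01 (x y : G2 K) :
    (x * y).1 0 1 = x.1 0 0 * y.1 0 1 + x.1 0 1 * y.1 1 1 := by
  simp [Matrix.mul_apply, Fin.sum_univ_two]

@[simp] theorem mul10 (x y : G2 K) :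
    (x * y).1 1 0 = x.1 1 0 * y.1 0 0 + x.1 1 1 * y.1 1 0 := by
  simp [Matrix.mul_apply, Fin.sum_univ_two]

@[simp] theorem mul11 (x y : G2 K) :
    (x * y).1 1 1 = x.1 1 0 * y.1 0 1 + x.1 1 1 * y.1 1 1 := by
  simp [Matrix.mul_apply, Fin.sum_univ_two]

@[simp] theorem one00 : (1 : G2 K).1 0 0 = 1 := by simp
@[simp] theorem one01 : (1 : G2 K).1 0 1 = 0 := by simp
@[simp] theorem one10 : (1 : G2 K).1 1 0 = 0 := by simp
@[simp] theorem one11 : (1 : G2 K).1 1 1 = 1 := by simp

@[simp] theorem uu00 (b : K) : (uu b).1 0 0 = 1 := rfl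
@[simp] theorem uu01 (b : K) : (uu b).1 0 1 = b := rfl
@[simp] theorem uu10 (b : K) : (uu b).1 1 0 = 0 := rfl
@[simp] theorem uu11 (b : K) : (uu b).1 1 1 = 1 := rfl

@[simp] theorem ww00 : (ww K).1 0 0 = 0 := rfl
@[simp] theorem ww01 : (ww K).1 0 1 = 1 := rfl
@[simp] theorem ww10 : (ww K).1 1 0 = 1 := rfl
@[simp] theorem ww11 : (ww K).1 1 1 = 0 := rfl

@[simp] theorem inv00 (x : G2 K) : (x⁻¹).1 0 0 = x.1 1 1 := by
  simp [Matrix.SpecialLinearGroup.coe_inv, Matrix.adjugate_fin_two]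

@[simp] theorem inv01 (x : G2 K) : (x⁻¹).1 0 1 = x.1 0 1 := by
  simp [Matrix.SpecialLinearGroup.coe_inv, Matrix.adjugate_fin_two, CharTwo.neg_eq]

@[simp] theorem inv10 (x : G2 K) : (x⁻¹).1 1 0 = x.1 1 0 := by
  simp [Matrix.SpecialLinearGroup.coe_inv, Matrix.adjugate_fin_two, CharTwo.neg_eq]

@[simp] theorem inv11 (x : G2 K) : (x⁻¹).1 1 1 = x.1 0 0 := by
  simp [Matrix.SpecialLinearGroup.coe_inv, Matrix.adjugate_fin_two]

theorem two_zero (a : K) : a + a = 0 := CharTwo.add_self_eq_zero a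

theorem eq_of_add_zero {a b : K} (h : a + b = 0) : a = b := CharTwo.add_eq_zero.1 h

theorem uu_add (a b : K) : uu (a + b) = uu a * uu b := by
  apply g_ext <;> simp [add_comm]

theorem uu_zero : uu (0 : K) = 1 := by
  apply g_ext <;> simp

theorem uu_inj {a b : K} (h : uu a = uu b) : a = b := by
  have := congrArg (fun x : G2 K => x.1 0 1) h
  simpa using this

theorem tt_one : tt (1 : G2 K) = 0 := by
  simp only [tt, one00, one11]
  exact two_zero 1

theorem tt_inv (x : G2 K) : tt x⁻¹ = tt x := by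
  simp only [tt, inv00, inv11]
  ring

theorem tt_comm (x y : G2 K) : tt (x * y) = tt (y * x) := by
  simp only [tt, mul00, mul11]
  ring

theorem tt_conj (x g : G2 K) : tt (g * x * g⁻¹) = tt x := by
  rw [tt_comm, ← mul_assoc, inv_mul_cancel, one_mul]

/-- The elements `x` with `x² = 1` are those of trace zero. -/
theorem sq_one_iff (x : G2 K) : x * x = 1 ↔ tt x = 0 := by
  have hd := det_one x
  constructor
  · intro h
    have h00 := congrArg (fun y : G2 K => y.1 0 0) h
    have h01 := congrArg (fun y : G2 K => y.1 0 1) h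
    have h11 := congrArg (fun y : G2 K => y.1 1 1) h
    simp only [mul00, mul01, mul11, one00, one01, one11] at h00 h01 h11
    -- `a² + bc = 1`, `ad + bc = 1`, so `a (a + d) = 0`; in the same way `d (a + d) = 0`
    have e1 : x.1 0 0 * tt x = 0 := by
      simp only [tt]
      linear_combination h00 - hd + two_zero (x.1 0 0 * x.1 1 1)
    have e2 : x.1 1 1 * tt x = 0 := by
      simp only [tt]
      linear_combination h11 - hd + two_zero (x.1 0 0 * x.1 1 1)
    have e3 : tt x * tt x = 0 := by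
      have : tt x * tt x = x.1 0 0 * tt x + x.1 1 1 * tt x := by
        simp only [tt]
        ring
      rw [this, e1, e2, add_zero]
    exact mul_self_eq_zero.1 e3
  · intro h
    have hdd : x.1 1 1 = x.1 0 0 := (eq_of_add_zero h).symm
    rw [hdd] at hd
    apply g_ext
    · rw [mul00, one00]
      exact hd
    · rw [mul01, one01, hdd]
      linear_combination two_zero (x.1 0 0 * x.1 0 1)
    · rw [mul10, one10, hdd]
      linear_combination two_zero (x.1 1 0 * x.1 0 0)
    · rw [mul11, one11, hdd]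
      linear_combination hd

theorem inv_eq_self {x : G2 K} (h : tt x = 0) : x⁻¹ = x := by
  rw [inv_eq_iff_mul_eq_one]
  exact (sq_one_iff x).2 h

theorem tt_uu (b : K) : tt (uu b) = 0 := by
  simp only [tt, uu00, uu11]
  exact two_zero 1

theorem tt_ww : tt (ww K) = 0 := by
  simp [tt]

/-- An element which commutes with an involution has trace zero. -/
theorem tt_zero_of_commute {v z : G2 K} (hv : tt v = 0) (hv1 : v ≠ 1) (h : v * z = z * v) :
    tt z = 0 := by
  have h00 := congrArg (fun y : G2 K => y.1 0 0) h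
  have h01 := congrArg (fun y : G2 K => y.1 0 1) h
  have h10 := congrArg (fun y : G2 K => y.1 1 0) h
  simp only [mul00, mul01, mul10] at h00 h01 h10
  have hdd : v.1 1 1 = v.1 0 0 := (eq_of_add_zero hv).symm
  have hd := det_one v
  rw [hdd] at h01 h10 hd
  by_contra hz
  have e1 : v.1 0 1 * tt z = 0 := by
    simp only [tt]
    linear_combination h01 + two_zero (v.1 0 1 * z.1 0 0)
  have e2 : v.1 1 0 * tt z = 0 := by
    simp only [tt]
    linear_combination h10 + two_zero (v.1 1 0 * z.1 1 1)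
  have hb : v.1 0 1 = 0 := (mul_eq_zero.1 e1).resolve_right hz
  have hc : v.1 1 0 = 0 := (mul_eq_zero.1 e2).resolve_right hz
  rw [hb, zero_mul, add_zero] at hd
  have ha : v.1 0 0 = 1 := by
    have : (v.1 0 0 + 1) * (v.1 0 0 + 1) = 0 := by
      linear_combination hd + two_zero (v.1 0 0) + two_zero (1 : K)
    exact eq_of_add_zero (mul_self_eq_zero.1 this)
  apply hv1
  apply g_ext
  · rw [ha, one00]
  · rw [hb, one01]
  · rw [hc, one10]
  · rw [hdd, ha, one11]

/-- Elements of nonzero trace have odd order. -/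
theorem odd_order [Finite K] {z : G2 K} (hz : tt z ≠ 0) : Odd (orderOf z) := by
  by_contra hodd
  rw [Nat.not_odd_iff_even] at hodd
  obtain ⟨j, hj⟩ := hodd
  have hpos : 0 < orderOf z := orderOf_pos z
  have hj0 : 0 < j := by omega
  have h1 : z ^ j ≠ 1 := by
    intro h
    have := orderOf_le_of_pow_eq_one hj0 h
    omega
  have h2 : z ^ j * z ^ j = 1 := by
    rw [← pow_add, ← hj, pow_orderOf_eq_one]
  have h3 : tt (z ^ j) = 0 := (sq_one_iff _).1 h2
  exact hz (tt_zero_of_commute h3 h1 (by rw [← pow_succ, ← pow_succ']))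

/-- Two elements `x`, `y` of order two are conjugate in `X` if the trace of `xy` is not zero. -/
theorem conj_of_tt_ne [Finite K] {X : Subgroup (G2 K)} {x y : G2 K} (hx : x ∈ X) (hy : y ∈ X)
    (hx0 : tt x = 0) (hy0 : tt y = 0) (hxy : tt (x * y) ≠ 0) : ∃ g ∈ X, g * x * g⁻¹ = y := by
  have hx2 : x * x = 1 := (sq_one_iff x).2 hx0
  have hy2 : y * y = 1 := (sq_one_iff y).2 hy0
  obtain ⟨k, hk⟩ := odd_order hxy
  have hinv : (x * y)⁻¹ = y * x := by
    rw [_root_.mul_inv_rev, inv_eq_self hx0, inv_eq_self hy0]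
  -- `x z x = z⁻¹`
  have hxz : ∀ n : ℕ, x * ((x * y) ^ n)⁻¹ = (x * y) ^ n * x := by
    intro n
    induction n with
    | zero => simp
    | succ n ih =>
      rw [pow_succ, _root_.mul_inv_rev, ← mul_assoc, hinv, ← mul_assoc, mul_assoc (x * y) x, ih,
        ← mul_assoc, ← pow_succ', pow_succ]
  refine ⟨(x * y) ^ k, X.pow_mem (X.mul_mem hx hy) k, ?_⟩
  rw [mul_assoc, hxz, ← mul_assoc, ← pow_add]
  have h1 : (x * y) ^ (k + k) * (x * y) = 1 := by
    rw [← pow_succ, ← two_mul, ← hk, pow_orderOf_eq_one]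
  have h2 : (x * y) ^ (k + k) = (x * y)⁻¹ := eq_inv_of_mul_eq_one_left h1
  rw [h2, hinv, mul_assoc, hx2, mul_one]

/-- The matrices with entries in the subfield `E`. -/
def sle (E : Subfield K) : Subgroup (G2 K) where
  carrier := {x | x.1 0 0 ∈ E ∧ x.1 0 1 ∈ E ∧ x.1 1 0 ∈ E ∧ x.1 1 1 ∈ E}
  mul_mem' := by
    rintro x y ⟨h1, h2, h3, h4⟩ ⟨k1, k2, k3, k4⟩
    refine ⟨?_, ?_, ?_, ?_⟩
    · rw [mul00]
      exact E.add_mem (E.mul_mem h1 k1) (E.mul_mem h2 k3)
    · rw [mul01]
      exact E.add_mem (E.mul_mem h1 k2) (E.mul_mem h2 k4)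
    · rw [mul10]
      exact E.add_mem (E.mul_mem h3 k1) (E.mul_mem h4 k3)
    · rw [mul11]
      exact E.add_mem (E.mul_mem h3 k2) (E.mul_mem h4 k4)
  one_mem' := by
    refine ⟨?_, ?_, ?_, ?_⟩
    · rw [one00]
      exact E.one_mem
    · rw [one01]
      exact E.zero_mem
    · rw [one10]
      exact E.zero_mem
    · rw [one11]
      exact E.one_mem
  inv_mem' := by
    rintro x ⟨h1, h2, h3, h4⟩
    refine ⟨?_, ?_, ?_, ?_⟩
    · rw [inv00]
      exact h4
    · rw [inv01]
      exact h2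
    · rw [inv10]
      exact h3
    · rw [inv11]
      exact h1

theorem mem_sle {E : Subfield K} {x : G2 K} :
    x ∈ sle E ↔ x.1 0 0 ∈ E ∧ x.1 0 1 ∈ E ∧ x.1 1 0 ∈ E ∧ x.1 1 1 ∈ E := Iff.rfl

/-- The elements of order two of `X`. -/
def Iv (X : Subgroup (G2 K)) : Set (G2 K) := {x | x ∈ X ∧ x ≠ 1 ∧ tt x = 0}

/-- The torus: the centralizer of the element `(1 1; 1 0)` of order three. -/
def TT (K : Type) [Field K] [CharP K 2] : Subgroup (G2 K) :=
  Subgroup.centralizer {uu (1 : K) * ww K}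

/-- The group `SL_2(2)`. -/
def SS (K : Type) [Field K] [CharP K 2] : Subgroup (G2 K) := Subgroup.closure {uu (1 : K), ww K}

theorem SS_le {X : Subgroup (G2 K)} : SS K ≤ X ↔ uu (1 : K) ∈ X ∧ ww K ∈ X := by
  unfold SS
  rw [Subgroup.closure_le]
  constructor
  · intro h
    exact ⟨h (by simp), h (by simp)⟩
  · rintro ⟨h1, h2⟩ x hx
    rcases hx with rfl | hx
    · exact h1
    · rw [Set.mem_singleton_iff] at hx
      rw [hx]
      exact h2

/-- The order of the torus of `SL_2(2^d)` containing the element `(1 1; 1 0)` of order three: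
`2^d - (-1)^d`. -/
def tor (d : ℕ) : ℕ := if Even d then 2 ^ d - 1 else 2 ^ d + 1

end

end Pool.Agent.H33WL
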