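import Pool.Agent.Helper33.WL.Rep

/-!
# The dual of a representable lattice is representable (Kurzweil, Netter)

* `rep_unary'`: a representable lattice is the congruence lattice of a finite unary algebra.
* `rep_ops`: the lattice of the subgroups `X ≥ H` of a finite group which are mapped into themselves
  by the endomorphisms in `Φ` is representable.
* `classify`: the subgroups of `S^X` (`S` simple, not commutative) which contain the diagonal are the
  groups `S^α` of the functions which are constant on the classes of an equivalence relation `α`.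
* `rep_dual`: the dual of a representable lattice is representable.
-/

set_option autoImplicit false

namespace Pool.Agent.H33WL

/-- Reduction to unary algebras. -/
theorem rep_unary' {L : Type} [LE L] (h : Representable L) :
    ∃ (A : Type) (_ : Finite A) (_ : Nonempty A) (F : Set (A → A)),
      Nonempty (L ≃o {r : Setoid A // ∀ f ∈ F, ∀ x y : A, r.r x y → r.r (f x) (f y)}) := by
  obtain ⟨A, hA, hA', F0, ⟨e⟩⟩ := h
  classical
  refine ⟨A, hA, hA', {u | ∃ f ∈ F0, ∃ (i : Fin f.1) (c : Fin f.1 → A),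
    u = fun a => f.2 (Function.update c i a)}, ⟨e.trans ?_⟩⟩
  have hiff : ∀ r : Setoid A, (∀ f ∈ F0, ∀ x y : Fin f.1 → A,
      (∀ i, r.r (x i) (y i)) → r.r (f.2 x) (f.2 y)) ↔
      ∀ u ∈ ({u | ∃ f ∈ F0, ∃ (i : Fin f.1) (c : Fin f.1 → A),
        u = fun a => f.2 (Function.update c i a)} : Set (A → A)),
        ∀ x y : A, r.r x y → r.r (u x) (u y) := by
    intro r
    constructor
    · rintro h u ⟨f, hf, i, c, rfl⟩ x y hxy
      apply h f hf
      intro j
      by_cases hj : j = i
      · subst hj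
        rw [Function.update_self, Function.update_self]
        exact hxy
      · rw [Function.update_of_ne hj, Function.update_of_ne hj]
    · intro h f hf x y hxy
      have key : ∀ s : Finset (Fin f.1), r.r (f.2 x) (f.2 (s.piecewise y x)) := by
        intro s
        induction s using Finset.induction_on with
        | empty =>
          rw [Finset.piecewise_empty]
        | insert i s hi ih =>
          refine r.trans ih ?_
          rw [Finset.piecewise_insert]
          have h1 : s.piecewise y x = Function.update (s.piecewise y x) i (x i) := by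
            conv_lhs => rw [← Function.update_eq_self i (s.piecewise y x)]
            rw [Finset.piecewise_eq_of_notMem _ _ _ hi]
          conv_lhs => rw [h1]
          exact h _ ⟨f, hf, i, s.piecewise y x, rfl⟩ _ _ (hxy i)
      have := key Finset.univ
      rwa [Finset.piecewise_univ] at this
  exact
    { toEquiv := Equiv.subtypeEquivRight hiff
      map_rel_iff' := Iff.rfl }

section

variable {G : Type} [Group G]

/-- The equivalence relation of `G / H` which belongs to the subgroup `X ≥ H`. -/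
def cst (H X : Subgroup G) (h : H ≤ X) : Setoid (G ⧸ H) :=
  Setoid.ker (Subgroup.quotientMapOfLE h)

theorem cst_iff {H X : Subgroup G} (h : H ≤ X) (a b : G) :
    (cst H X h).r (a : G ⧸ H) (b : G ⧸ H) ↔ a⁻¹ * b ∈ X := by
  rw [← QuotientGroup.eq (s := X)]
  exact Iff.rfl

theorem cst_le {H X Y : Subgroup G} (h : H ≤ X) (h' : H ≤ Y) : cst H X h ≤ cst H Y h' ↔ X ≤ Y := by
  constructor
  · intro hle g hg
    have h1 : (cst H X h).r ((1 : G) : G ⧸ H) (g : G ⧸ H) := by
      rw [cst_iff]
      simpa using hg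
    have h2 : (cst H Y h').r ((1 : G) : G ⧸ H) (g : G ⧸ H) := hle h1
    rw [cst_iff] at h2
    simpa using h2
  · intro hle x y hxy
    induction x using QuotientGroup.induction_on with
    | H x =>
      induction y using QuotientGroup.induction_on with
      | H y =>
        have h1 := (cst_iff h x y).1 hxy
        exact (cst_iff h' x y).2 (hle h1)

theorem cst_surj {H : Subgroup G} (r : Setoid (G ⧸ H))
    (hr : ∀ g a b : G, r.r (a : G ⧸ H) (b : G ⧸ H) → r.r ((g * a : G) : G ⧸ H) ((g * b : G) : G ⧸ H)) :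
    ∃ (X : Subgroup G) (h : H ≤ X), r = cst H X h := by
  let X : Subgroup G :=
    { carrier := {g | r.r ((1 : G) : G ⧸ H) (g : G ⧸ H)}
      one_mem' := r.refl _
      mul_mem' := by
        intro a b ha hb
        refine r.trans ha ?_
        have h := hr a _ _ hb
        rw [mul_one] at h
        exact h
      inv_mem' := by
        intro a ha
        refine r.symm ?_
        have h := hr a⁻¹ _ _ ha
        rw [mul_one, inv_mul_cancel] at h
        exact h }
  have hX : ∀ g, g ∈ X ↔ r.r ((1 : G) : G ⧸ H) (g : G ⧸ H) := fun g => Iff.rfl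
  have hle : H ≤ X := by
    intro g hg
    rw [hX]
    have h1 : ((1 : G) : G ⧸ H) = (g : G ⧸ H) := by
      rw [QuotientGroup.eq, inv_one, one_mul]
      exact hg
    rw [← h1]
  refine ⟨X, hle, ?_⟩
  apply Setoid.ext
  intro x y
  induction x using QuotientGroup.induction_on with
  | H x =>
    induction y using QuotientGroup.induction_on with
    | H y =>
      refine Iff.trans ?_ (cst_iff hle x y).symm
      rw [hX]
      constructor
      · intro h
        have h2 := hr x⁻¹ _ _ h
        rw [inv_mul_cancel] at h2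
        exact h2
      · intro h
        have h2 := hr x _ _ h
        rw [mul_one, mul_inv_cancel_left] at h2
        exact h2

/-- Subgroups which contain `H` and are invariant under given endomorphisms. -/
theorem rep_ops [Finite G] (H : Subgroup G) (Φ : Set (G →* G)) (hΦ : ∀ φ ∈ Φ, ∀ x ∈ H, φ x ∈ H) :
    Representable {X : Subgroup G // H ≤ X ∧ ∀ φ ∈ Φ, ∀ x ∈ X, φ x ∈ X} := by
  have hm : ∀ (g x y : G), (QuotientGroup.leftRel H).r x y →
      (QuotientGroup.leftRel H).r (g * x) (g * y) := by
    intro g x y h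
    rw [QuotientGroup.leftRel_apply] at h ⊢
    rw [mul_inv_rev, mul_assoc, inv_mul_cancel_left]
    exact h
  let lm : G → (G ⧸ H) → (G ⧸ H) := fun g => Quotient.map' (fun x => g * x) (hm g)
  let F : Set ((G ⧸ H) → (G ⧸ H)) :=
    {f | (∃ g : G, ∀ x : G, f (x : G ⧸ H) = ((g * x : G) : G ⧸ H)) ∨
      ∃ φ ∈ Φ, ∀ x : G, f (x : G ⧸ H) = ((φ x : G) : G ⧸ H)}
  have hlm : ∀ g : G, ∃ f ∈ F, ∀ x : G, f (x : G ⧸ H) = ((g * x : G) : G ⧸ H) := fun g =>
    ⟨fun x => g • x, Or.inl ⟨g, fun x => rfl⟩, fun x => rfl⟩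
  have hphi : ∀ φ ∈ Φ, ∃ f ∈ F, ∀ x : G, f (x : G ⧸ H) = ((φ x : G) : G ⧸ H) := by
    intro φ hφ
    have h1 : ∀ x y : G, (QuotientGroup.leftRel H) x y → (QuotientGroup.leftRel H) (φ x) (φ y) := by
      intro x y h
      rw [QuotientGroup.leftRel_apply] at h ⊢
      rw [← map_inv, ← map_mul]
      exact hΦ φ hφ _ h
    exact ⟨Quotient.map' φ h1, Or.inr ⟨φ, hφ, fun x => rfl⟩, fun x => rfl⟩
  have hcomp : ∀ (X : Subgroup G) (h : H ≤ X),
      ((∀ φ ∈ Φ, ∀ x ∈ X, φ x ∈ X) ↔
        ∀ f ∈ F, ∀ x y : G ⧸ H, (cst H X h).r x y → (cst H X h).r (f x) (f y)) := by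
    intro X h
    constructor
    · intro hX f hf x y hxy
      induction x using QuotientGroup.induction_on with
      | H x =>
        induction y using QuotientGroup.induction_on with
        | H y =>
          have h1 : x⁻¹ * y ∈ X := (cst_iff h x y).1 hxy
          rcases hf with ⟨g, hg⟩ | ⟨φ, hφ, hg⟩
          · rw [hg, hg]
            refine (cst_iff h _ _).2 ?_
            rw [mul_inv_rev, mul_assoc, inv_mul_cancel_left]
            exact h1
          · rw [hg, hg]
            refine (cst_iff h _ _).2 ?_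
            rw [← map_inv, ← map_mul]
            exact hX φ hφ _ h1
    · intro hX φ hφ x hx
      obtain ⟨f, hf, hfx⟩ := hphi φ hφ
      have h1 : (cst H X h).r ((1 : G) : G ⧸ H) (x : G ⧸ H) := by
        refine (cst_iff h _ _).2 ?_
        rw [inv_one, one_mul]
        exact hx
      have h2 := hX f hf _ _ h1
      rw [hfx, hfx] at h2
      have h3 := (cst_iff h _ _).1 h2
      rwa [map_one, inv_one, one_mul] at h3
  let T : {X : Subgroup G // H ≤ X ∧ ∀ φ ∈ Φ, ∀ x ∈ X, φ x ∈ X} →
      {r : Setoid (G ⧸ H) // ∀ f ∈ F, ∀ x y : G ⧸ H, r.r x y → r.r (f x) (f y)} :=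
    fun X => ⟨cst H X.1 X.2.1, (hcomp X.1 X.2.1).1 X.2.2⟩
  have hT : ∀ X Y, T X ≤ T Y ↔ X ≤ Y := fun X Y => cst_le X.2.1 Y.2.1
  have hinj : Function.Injective T := by
    intro X Y h
    apply le_antisymm
    · rw [← hT, h]
    · rw [← hT, h]
  have hsurj : Function.Surjective T := by
    rintro ⟨r, hr⟩
    obtain ⟨X, h, rfl⟩ := cst_surj r (by
      intro g a b hab
      obtain ⟨f, hf, hfx⟩ := hlm g
      rw [← hfx, ← hfx]
      exact hr f hf _ _ hab)
    exact ⟨⟨X, h, (hcomp X h).2 hr⟩, rfl⟩
  exact rep_unary (G ⧸ H) F ⟨Equiv.ofBijective T ⟨hinj, hsurj⟩, hT _ _⟩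

end

section

variable {A S : Type} [Group S]

/-- The functions which are constant on the classes of `α`. -/
def pw (S : Type) [Group S] (α : Setoid A) : Subgroup (A → S) where
  carrier := {g | ∀ x y, α.r x y → g x = g y}
  one_mem' := fun _ _ _ => rfl
  mul_mem' := by
    intro a b ha hb x y h
    rw [Pi.mul_apply, Pi.mul_apply, ha x y h, hb x y h]
  inv_mem' := by
    intro a ha x y h
    rw [Pi.inv_apply, Pi.inv_apply, ha x y h]

theorem mem_pw {α : Setoid A} {g : A → S} : g ∈ pw S α ↔ ∀ x y, α.r x y → g x = g y := Iff.rfl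

/-- The equivalence relation of a subgroup of `S^A`. -/
def al (H : Subgroup (A → S)) : Setoid A where
  r x y := ∀ h ∈ H, h x = h y
  iseqv :=
    { refl := fun _ _ _ => rfl
      symm := fun h g hg => (h g hg).symm
      trans := fun h h' g hg => (h g hg).trans (h' g hg) }

theorem al_iff {H : Subgroup (A → S)} {x y : A} : (al H).r x y ↔ ∀ h ∈ H, h x = h y := Iff.rfl

theorem top_eq_of_simple [IsSimpleGroup S] (N : Subgroup S) (hN : ∀ n ∈ N, ∀ g : S, g * n * g⁻¹ ∈ N)
    {a : S} (ha : a ∈ N) (ha1 : a ≠ 1) (s : S) : s ∈ N := by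
  have hn : N.Normal := ⟨hN⟩
  rcases hn.eq_bot_or_eq_top with h | h
  · rw [h, Subgroup.mem_bot] at ha
    exact absurd ha ha1
  · rw [h]
    exact Subgroup.mem_top s

variable [IsSimpleGroup S]

theorem key_one {H : Subgroup (A → S)} (hH : pw S (⊤ : Setoid A) ≤ H) {x y : A}
    (hxy : ¬ (al H).r x y) (s : S) : ∃ h ∈ H, h y = s ∧ h x = 1 := by
  have hc : ∀ s : S, (fun _ => s : A → S) ∈ H := fun s => hH fun _ _ _ => rfl
  let N : Subgroup S :=
    { carrier := {s | ∃ h ∈ H, h y = s ∧ h x = 1}
      one_mem' := ⟨1, H.one_mem, rfl, rfl⟩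
      mul_mem' := by
        rintro a b ⟨h, hh, h1, h2⟩ ⟨k, hk, k1, k2⟩
        refine ⟨h * k, H.mul_mem hh hk, ?_, ?_⟩
        · rw [Pi.mul_apply, h1, k1]
        · rw [Pi.mul_apply, h2, k2, mul_one]
      inv_mem' := by
        rintro a ⟨h, hh, h1, h2⟩
        refine ⟨h⁻¹, H.inv_mem hh, ?_, ?_⟩
        · rw [Pi.inv_apply, h1]
        · rw [Pi.inv_apply, h2, inv_one] }
  rw [al_iff] at hxy
  push Not at hxy
  obtain ⟨h0, hh0, hne⟩ := hxy
  have h1 : h0 y * (h0 x)⁻¹ ∈ N :=
    ⟨h0 * fun _ => (h0 x)⁻¹, H.mul_mem hh0 (hc _), rfl, mul_inv_cancel _⟩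
  have h2 : h0 y * (h0 x)⁻¹ ≠ 1 := by
    intro h
    rw [mul_inv_eq_one] at h
    exact hne h.symm
  exact top_eq_of_simple N (by
    rintro n ⟨h, hh, h3, h4⟩ g
    refine ⟨(fun _ => g) * h * (fun _ => g)⁻¹, H.mul_mem (H.mul_mem (hc g) hh) (H.inv_mem (hc g)),
      ?_, ?_⟩
    · show g * h y * g⁻¹ = g * n * g⁻¹
      rw [h3]
    · show g * h x * g⁻¹ = 1
      rw [h4, mul_one, mul_inv_cancel]) h1 h2 s

theorem key_fin {a b : S} (hab : a * b ≠ b * a) {H : Subgroup (A → S)}
    (hH : pw S (⊤ : Setoid A) ≤ H) (y : A) (T : Finset A) (hT : ∀ x ∈ T, ¬ (al H).r x y) (s : S) :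
    ∃ h ∈ H, h y = s ∧ ∀ x ∈ T, h x = 1 := by
  classical
  have hc : ∀ s : S, (fun _ => s : A → S) ∈ H := fun s => hH fun _ _ _ => rfl
  induction T using Finset.induction_on generalizing s with
  | empty => exact ⟨fun _ => s, hc s, rfl, fun x hx => absurd hx (Finset.notMem_empty x)⟩
  | insert x T hx ih =>
    have ih' := ih fun z hz => hT z (Finset.mem_insert_of_mem hz)
    let N : Subgroup S :=
      { carrier := {s | ∃ h ∈ H, h y = s ∧ ∀ z ∈ insert x T, h z = 1}
        one_mem' := ⟨1, H.one_mem, rfl, fun _ _ => rfl⟩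
        mul_mem' := by
          rintro a b ⟨h, hh, h1, h2⟩ ⟨k, hk, k1, k2⟩
          refine ⟨h * k, H.mul_mem hh hk, ?_, ?_⟩
          · rw [Pi.mul_apply, h1, k1]
          · intro z hz
            rw [Pi.mul_apply, h2 z hz, k2 z hz, mul_one]
        inv_mem' := by
          rintro a ⟨h, hh, h1, h2⟩
          refine ⟨h⁻¹, H.inv_mem hh, ?_, ?_⟩
          · rw [Pi.inv_apply, h1]
          · intro z hz
            rw [Pi.inv_apply, h2 z hz, inv_one] }
    obtain ⟨h, hh, h1, h2⟩ := ih' a
    obtain ⟨k, hk, k1, k2⟩ := key_one hH (hT x (Finset.mem_insert_self x T)) b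
    have h3 : a * b * a⁻¹ * b⁻¹ ∈ N := by
      refine ⟨h * k * h⁻¹ * k⁻¹, H.mul_mem (H.mul_mem (H.mul_mem hh hk) (H.inv_mem hh))
        (H.inv_mem hk), ?_, ?_⟩
      · show h y * k y * (h y)⁻¹ * (k y)⁻¹ = _
        rw [h1, k1]
      · intro z hz
        show h z * k z * (h z)⁻¹ * (k z)⁻¹ = 1
        rcases Finset.mem_insert.1 hz with rfl | hz'
        · rw [k2]
          group
        · rw [h2 z hz']
          group
    have h4 : a * b * a⁻¹ * b⁻¹ ≠ 1 := by
      intro h
      apply hab
      rw [mul_inv_eq_one, mul_inv_eq_iff_eq_mul] at h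
      exact h
    exact top_eq_of_simple N (by
      rintro n ⟨h, hh, h5, h6⟩ g
      refine ⟨(fun _ => g) * h * (fun _ => g)⁻¹, H.mul_mem (H.mul_mem (hc g) hh) (H.inv_mem (hc g)),
        ?_, ?_⟩
      · show g * h y * g⁻¹ = g * n * g⁻¹
        rw [h5]
      · intro z hz
        show g * h z * g⁻¹ = 1
        rw [h6 z hz, mul_one, mul_inv_cancel]) h3 h4 s

/-- The subgroups of `S^A` which contain the diagonal. -/
theorem classify [Finite A] {a b : S} (hab : a * b ≠ b * a) {H : Subgroup (A → S)}
    (hH : pw S (⊤ : Setoid A) ≤ H) : H = pw S (al H) := by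
  classical
  apply le_antisymm
  · intro h hh x y hxy
    exact hxy h hh
  · intro g hg
    have key : ∀ U : Finset A, ∃ h ∈ H, ∀ x ∈ U, h x = g x := by
      intro U
      induction U using Finset.induction_on with
      | empty => exact ⟨1, H.one_mem, fun x hx => absurd hx (Finset.notMem_empty x)⟩
      | insert y U hy ih =>
        obtain ⟨h, hh, h1⟩ := ih
        by_cases hex : ∃ x ∈ U, (al H).r x y
        · obtain ⟨x, hx, hxy⟩ := hex
          refine ⟨h, hh, ?_⟩
          intro z hz
          rcases Finset.mem_insert.1 hz with rfl | hz'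
          · rw [← hxy h hh, h1 x hx, hg x z hxy]
          · exact h1 z hz'
        · push Not at hex
          obtain ⟨k, hk, k1, k2⟩ := key_fin hab hH y U hex ((h y)⁻¹ * g y)
          refine ⟨h * k, H.mul_mem hh hk, ?_⟩
          intro z hz
          rcases Finset.mem_insert.1 hz with rfl | hz'
          · rw [Pi.mul_apply, k1, mul_inv_cancel_left]
          · rw [Pi.mul_apply, k2 z hz', mul_one, h1 z hz']
    have : Fintype A := Fintype.ofFinite A
    obtain ⟨h, hh, h1⟩ := key Finset.univ
    have : h = g := funext fun x => h1 x (Finset.mem_univ x)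
    rw [← this]
    exact hh

theorem pw_le {α β : Setoid A} : pw S α ≤ pw S β ↔ β ≤ α := by
  classical
  constructor
  · intro h x y hxy
    by_contra hne
    obtain ⟨s, hs⟩ := exists_ne (1 : S)
    have h1 : (fun z => if α.r z x then s else 1 : A → S) ∈ pw S α := by
      intro u v huv
      show (if α.r u x then s else 1) = if α.r v x then s else 1
      by_cases hu : α.r u x
      · have hv : α.r v x := α.trans (α.symm huv) hu
        rw [if_pos hu, if_pos hv]
      · have hv : ¬ α.r v x := fun hv => hu (α.trans huv hv)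
        rw [if_neg hu, if_neg hv]
    have h2 : (if α.r x x then s else 1 : S) = if α.r y x then s else 1 := h h1 x y hxy
    rw [if_pos (α.refl x), if_neg fun h => hne (α.symm h)] at h2
    exact hs h2
  · intro h g hg x y hxy
    exact hg x y (h hxy)

/-- Precomposition with `f`. -/
def pre (S : Type) [Group S] (f : A → A) : (A → S) →* (A → S) where
  toFun g := g ∘ f
  map_one' := rfl
  map_mul' := fun _ _ => rfl

theorem pre_iff {α : Setoid A} (f : A → A) :
    (∀ g ∈ pw S α, pre S f g ∈ pw S α) ↔ ∀ x y, α.r x y → α.r (f x) (f y) := by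
  classical
  constructor
  · intro h x y hxy
    by_contra hne
    obtain ⟨s, hs⟩ := exists_ne (1 : S)
    have h1 : (fun z => if α.r z (f x) then s else 1 : A → S) ∈ pw S α := by
      intro u v huv
      show (if α.r u (f x) then s else 1) = if α.r v (f x) then s else 1
      by_cases hu : α.r u (f x)
      · have hv : α.r v (f x) := α.trans (α.symm huv) hu
        rw [if_pos hu, if_pos hv]
      · have hv : ¬ α.r v (f x) := fun hv => hu (α.trans huv hv)
        rw [if_neg hu, if_neg hv]
    have h2 : (if α.r (f x) (f x) then s else 1 : S) = if α.r (f y) (f x) then s else 1 :=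
      h _ h1 x y hxy
    rw [if_pos (α.refl _), if_neg fun h => hne (α.symm h)] at h2
    exact hs h2
  · intro h g hg x y hxy
    exact hg _ _ (h x y hxy)

end

/-- The dual of a representable lattice is representable. -/
theorem rep_dual {L : Type} [LE L] (h : Representable L) : Representable Lᵒᵈ := by
  obtain ⟨A, hA, hA', F, ⟨e⟩⟩ := rep_unary' h
  have hS : IsSimpleGroup (alternatingGroup (Fin 5)) := alternatingGroup.isSimpleGroup (by simp)
  obtain ⟨a, b, hab⟩ : ∃ a b : alternatingGroup (Fin 5), a * b ≠ b * a := by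
    refine ⟨⟨Equiv.swap 0 1 * Equiv.swap 1 2, Equiv.Perm.mem_alternatingGroup.2 (by decide)⟩,
      ⟨Equiv.swap 0 1 * Equiv.swap 1 3, Equiv.Perm.mem_alternatingGroup.2 (by decide)⟩, ?_⟩
    intro h
    have h1 := congrArg Subtype.val h
    revert h1
    decide
  have h1 := rep_ops (pw (alternatingGroup (Fin 5)) (⊤ : Setoid A))
    {φ | ∃ f ∈ F, φ = pre (alternatingGroup (Fin 5)) f} (by
      rintro φ ⟨f, hf, rfl⟩ g hg x y hxy
      exact hg _ _ trivial)
  let T : Lᵒᵈ → {X : Subgroup (A → alternatingGroup (Fin 5)) //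
      pw (alternatingGroup (Fin 5)) (⊤ : Setoid A) ≤ X ∧
        ∀ φ ∈ ({φ | ∃ f ∈ F, φ = pre (alternatingGroup (Fin 5)) f} :
          Set ((A → alternatingGroup (Fin 5)) →* (A → alternatingGroup (Fin 5)))),
            ∀ x ∈ X, φ x ∈ X} :=
    fun l => ⟨pw _ (e (OrderDual.ofDual l)).1, pw_le.2 le_top, by
      rintro φ ⟨f, hf, rfl⟩
      exact (pre_iff f).2 ((e (OrderDual.ofDual l)).2 f hf)⟩
  have hT : ∀ l m : Lᵒᵈ, T l ≤ T m ↔ l ≤ m := by
    intro l m
    refine (pw_le (S := alternatingGroup (Fin 5))).trans ?_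
    exact e.map_rel_iff
  have hinj : Function.Injective T := by
    intro l m hlm
    have h2 : (e (OrderDual.ofDual l)).1 = (e (OrderDual.ofDual m)).1 := by
      have h3 : pw (alternatingGroup (Fin 5)) (e (OrderDual.ofDual l)).1 =
          pw (alternatingGroup (Fin 5)) (e (OrderDual.ofDual m)).1 := congrArg Subtype.val hlm
      apply le_antisymm
      · rw [← pw_le (S := alternatingGroup (Fin 5)), h3]
      · rw [← pw_le (S := alternatingGroup (Fin 5)), h3]
    exact congrArg OrderDual.toDual (e.injective (Subtype.ext h2))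
  have hsurj : Function.Surjective T := by
    rintro ⟨X, hX, hinv⟩
    have h2 := classify hab hX
    have h3 : ∀ f ∈ F, ∀ x y : A, (al X).r x y → (al X).r (f x) (f y) := by
      intro f hf
      rw [← pre_iff (S := alternatingGroup (Fin 5)), ← h2]
      exact hinv _ ⟨f, hf, rfl⟩
    refine ⟨OrderDual.toDual (e.symm ⟨al X, h3⟩), ?_⟩
    apply Subtype.ext
    show pw _ (e (e.symm ⟨al X, h3⟩)).1 = X
    rw [e.apply_symm_apply]
    exact h2.symm
  exact rep_of_iso (⟨Equiv.ofBijective T ⟨hinj, hsurj⟩, hT _ _⟩ : Lᵒᵈ ≃o _).symm h1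

end Pool.Agent.H33WL
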