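import Pool.Agent.Helper33.WL.B3b
import Pool.Agent.Helper33.WL.B4
import Pool.Agent.Helper33.WL.B5b
import Pool.Agent.Helper33.WL.B6

/-!
# The lattice of the overgroups of `SL_2(2)` in `SL_2(2^n)`

`Lam n = {(m, 1) : 3 ∣ m ∣ 2^n - (-1)^n} ∪ {(2^d - (-1)^d, d) : d ∣ n}`, ordered by divisibility of both
coordinates, is isomorphic to the lattice of the subgroups of `SL_2(2^n)` which contain `SL_2(2)`, by
`X ↦ (|X ∩ T|, log_2 |{b | (1 b; 0 1) ∈ X}|)`.
-/

set_option autoImplicit false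
set_option linter.unusedSectionVars false

namespace Pool.Agent.H33WL

/-- `Lam n = {(m, 1) : 3 ∣ m ∣ 2^n - (-1)^n} ∪ {(2^d - (-1)^d, d) : d ∣ n}`. -/
def Lam (n : ℕ) : Type :=
  {p : ℕ × ℕ // (3 ∣ p.1 ∧ p.1 ∣ tor n ∧ p.2 = 1) ∨ (p.2 ∣ n ∧ p.1 = tor p.2)}

/-- Divisibility of both coordinates. -/
instance (n : ℕ) : LE (Lam n) := ⟨fun p q => p.1.1 ∣ q.1.1 ∧ p.1.2 ∣ q.1.2⟩

theorem Lam.le_def {n : ℕ} (p q : Lam n) : p ≤ q ↔ p.1.1 ∣ q.1.1 ∧ p.1.2 ∣ q.1.2 := Iff.rfl

section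

variable {K : Type} [Field K] [CharP K 2] [Finite K]

theorem uu_one_ne : uu (1 : K) ≠ 1 := by
  intro h
  have := uu_inj (h.trans (uu_zero (K := K)).symm)
  exact one_ne_zero this

theorem uu_sq : uu (1 : K) * uu 1 = 1 := by
  rw [← uu_add, two_zero, uu_zero]

theorem uu_notin_TT : uu (1 : K) ∉ TT K := fun h => uu_one_ne (TT_tt h (tt_uu 1))

theorem tt_cc : tt (uu (1 : K) * ww K) = 1 := by
  simp [tt]

theorem cc_ne : uu (1 : K) * ww K ≠ 1 := by
  intro h
  have := tt_cc (K := K)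
  rw [h, tt_one] at this
  exact zero_ne_one this

theorem cc_mem : uu (1 : K) * ww K ∈ TT K := by
  unfold TT
  rw [Subgroup.mem_centralizer_iff]
  intro h hh
  rw [Set.mem_singleton_iff] at hh
  rw [hh]

theorem cc_cube : (uu (1 : K) * ww K) ^ 3 = 1 := by
  rw [pow_succ, pow_two]
  apply g_ext <;> simp [CharTwo.add_self_eq_zero]

theorem orderOf_cc : orderOf (uu (1 : K) * ww K) = 3 :=
  orderOf_eq_prime cc_cube cc_ne

/-- The dihedral group `O ∪ uO`. -/
def dih (O : Subgroup (G2 K)) (hO : O ≤ TT K) : Subgroup (G2 K) where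
  carrier := {x | x ∈ O ∨ uu 1 * x ∈ O}
  mul_mem' := by
    have key : ∀ x ∈ O, uu 1 * x * uu 1 ∈ O := fun x hx => by
      rw [inv_TT (hO hx)]
      exact O.inv_mem hx
    have h2 := uu_sq (K := K)
    rintro x y (hx | hx) (hy | hy)
    · exact Or.inl (O.mul_mem hx hy)
    · right
      have : uu 1 * (x * y) = (uu 1 * x * uu 1) * (uu 1 * y) := by
        rw [mul_assoc (uu 1 * x), ← mul_assoc (uu 1) (uu 1) y, h2, one_mul, mul_assoc]
      rw [this]
      exact O.mul_mem (key x hx) hy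
    · right
      rw [← mul_assoc]
      exact O.mul_mem hx hy
    · left
      have : x * y = (uu 1 * (uu 1 * x) * uu 1) * (uu 1 * y) := by
        rw [← mul_assoc (uu 1) (uu 1) x, h2, one_mul, mul_assoc x, ← mul_assoc (uu 1) (uu 1) y, h2,
          one_mul]
      rw [this]
      exact O.mul_mem (key _ hx) hy
  one_mem' := Or.inl O.one_mem
  inv_mem' := by
    have h2 := uu_sq (K := K)
    rintro x (hx | hx)
    · exact Or.inl (O.inv_mem hx)
    · right
      have h3 := inv_TT (hO hx)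
      have h4 : x * x = 1 := by
        have e : x * x = (uu 1 * (uu 1 * x) * uu 1) * (uu 1 * x) := by
          rw [← mul_assoc (uu 1) (uu 1) x, h2, one_mul, mul_assoc x, ← mul_assoc (uu 1) (uu 1) x, h2,
            one_mul]
        rw [e, h3, inv_mul_cancel]
      rw [inv_eq_of_mul_eq_one_left h4]
      exact hx

theorem mem_dih {O : Subgroup (G2 K)} {hO : O ≤ TT K} {x : G2 K} :
    x ∈ dih O hO ↔ x ∈ O ∨ uu 1 * x ∈ O := Iff.rfl

theorem uu_mem_dih {O : Subgroup (G2 K)} (hO : O ≤ TT K) : uu 1 ∈ dih O hO := by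
  right
  rw [uu_sq]
  exact O.one_mem

theorem dih_inf {O : Subgroup (G2 K)} (hO : O ≤ TT K) : dih O hO ⊓ TT K = O := by
  ext x
  rw [Subgroup.mem_inf, mem_dih]
  constructor
  · rintro ⟨h | h, hT⟩
    · exact h
    · exfalso
      have : uu (1 : K) * x * x⁻¹ ∈ TT K := (TT K).mul_mem (hO h) ((TT K).inv_mem hT)
      rw [mul_inv_cancel_right] at this
      exact uu_notin_TT this
  · intro h
    exact ⟨Or.inl h, hO h⟩

/-- `uu b` is in the dihedral group only for `b = 0, 1`. -/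
theorem uu_dih {O : Subgroup (G2 K)} (hO : O ≤ TT K) {b : K} :
    uu b ∈ dih O hO ↔ b = 0 ∨ b = 1 := by
  constructor
  · rintro (h | h)
    · left
      have := TT_tt (hO h) (tt_uu b)
      exact uu_inj (this.trans (uu_zero (K := K)).symm)
    · right
      rw [← uu_add] at h
      have := TT_tt (hO h) (tt_uu _)
      have h1 := uu_inj (this.trans (uu_zero (K := K)).symm)
      exact (eq_of_add_zero h1).symm
  · rintro (rfl | rfl)
    · rw [uu_zero]
      exact (dih O hO).one_mem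
    · exact uu_mem_dih hO

/-- The order of the subfield of `X`, logarithm. -/
noncomputable def dd (X : Subgroup (G2 K)) : ℕ := Nat.log 2 (Nat.card {b : K // uu b ∈ X})

theorem dd_eq {X : Subgroup (G2 K)} {E : Subfield K} (hE : ∀ b : K, b ∈ E ↔ uu b ∈ X) {d : ℕ}
    (hd : Nat.card E = 2 ^ d) : dd X = d := by
  unfold dd
  have : Nat.card {b : K // uu b ∈ X} = Nat.card E :=
    Nat.card_congr (Equiv.subtypeEquivRight fun b => (hE b).symm)
  rw [this, hd]
  exact Nat.log_pow (by norm_num) d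

theorem SS_le_sle (E : Subfield K) : SS K ≤ sle E := by
  rw [SS_le]
  refine ⟨?_, ?_⟩
  · rw [mem_sle]
    simp [E.one_mem, E.zero_mem]
  · rw [mem_sle]
    simp [E.one_mem, E.zero_mem]

theorem uu_mem_sle {E : Subfield K} {b : K} : b ∈ E ↔ uu b ∈ sle E := by
  rw [mem_sle]
  simp [E.one_mem, E.zero_mem]

/-- If the subfield of `X` has two elements then `X` is dihedral. -/
theorem le_small {X Y : Subgroup (G2 K)} (hX : SS K ≤ X) (hY : SS K ≤ Y)
    (h2 : ∀ b : K, uu b ∈ X → b = 0 ∨ b = 1) (h : X ⊓ TT K ≤ Y ⊓ TT K) : X ≤ Y := by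
  obtain ⟨hu, hw⟩ := SS_le.1 hX
  obtain ⟨hu', hw'⟩ := SS_le.1 hY
  intro x hx
  rcases small hu hw h2 hx with hT | hT
  · exact (h ⟨hx, hT⟩).1
  · have h3 : uu 1 * x ∈ Y := (h ⟨X.mul_mem hu hx, hT⟩).1
    have h4 := Y.mul_mem hu' h3
    rwa [← mul_assoc, uu_sq, one_mul] at h4

theorem three_dvd {X : Subgroup (G2 K)} (hX : SS K ≤ X) :
    3 ∣ Nat.card (X ⊓ TT K : Subgroup (G2 K)) := by
  obtain ⟨hu, hw⟩ := SS_le.1 hX
  have hc : uu (1 : K) * ww K ∈ X ⊓ TT K := ⟨X.mul_mem hu hw, cc_mem⟩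
  have := Subgroup.orderOf_dvd_natCard _ hc
  rwa [orderOf_cc] at this

theorem inf_le_iff (X Y : Subgroup (G2 K)) : X ⊓ TT K ≤ Y ⊓ TT K ↔
    Nat.card (X ⊓ TT K : Subgroup (G2 K)) ∣ Nat.card (Y ⊓ TT K : Subgroup (G2 K)) := by
  have := TT_cyclic (K := K)
  have h := cyc_le ((X ⊓ TT K).subgroupOf (TT K)) ((Y ⊓ TT K).subgroupOf (TT K))
  have e1 : ∀ Z : Subgroup (G2 K), Nat.card ((Z ⊓ TT K).subgroupOf (TT K)) =
      Nat.card (Z ⊓ TT K : Subgroup (G2 K)) := fun Z =>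
    Nat.card_congr (Subgroup.subgroupOfEquivOfLe (inf_le_right : Z ⊓ TT K ≤ TT K)).toEquiv
  rw [e1, e1] at h
  rw [← h]
  constructor
  · intro h1 x hx
    exact h1 hx
  · intro h1 x hx
    exact h1 (show (⟨x, hx.2⟩ : TT K) ∈ (X ⊓ TT K).subgroupOf (TT K) from hx)

theorem card_T {n : ℕ} (hn : Nat.card K = 2 ^ n) : Nat.card (TT K) = tor n := by
  have h1 : Nat.card (⊤ : Subfield K) = 2 ^ n := by
    rw [← hn]
    exact Nat.card_congr Subfield.topEquiv.toEquiv
  have h2 := card_TT (⊤ : Subfield K) h1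
  have h3 : (TT K ⊓ sle ⊤ : Subgroup (G2 K)) = TT K := by
    apply le_antisymm inf_le_left
    intro x hx
    have h4 : x ∈ sle (⊤ : Subfield K) := by
      rw [mem_sle]
      exact ⟨Subfield.mem_top _, Subfield.mem_top _, Subfield.mem_top _, Subfield.mem_top _⟩
    exact ⟨hx, h4⟩
  rwa [h3] at h2

/-- The two cases. -/
theorem cases_of {n : ℕ} (hn : Nat.card K = 2 ^ n) {X : Subgroup (G2 K)} (hX : SS K ≤ X) :
    ((∀ b : K, uu b ∈ X → b = 0 ∨ b = 1) ∧ dd X = 1) ∨
      ∃ (E : Subfield K) (d : ℕ), 1 < d ∧ d ∣ n ∧ Nat.card E = 2 ^ d ∧ X = sle E ∧ dd X = d := by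
  obtain ⟨hu, hw⟩ := SS_le.1 hX
  obtain ⟨E, hE⟩ := exists_fld hu hw
  obtain ⟨d, hdn, hd0, hd⟩ := sub_card hn E
  have hdd := dd_eq hE hd
  rcases Nat.lt_or_ge 1 d with h1 | h1
  · right
    refine ⟨E, d, h1, hdn, hd, ?_, hdd⟩
    apply big hu hw hE
    rw [hd]
    calc 2 < 2 ^ 2 := by norm_num
      _ ≤ 2 ^ d := Nat.pow_le_pow_right (by norm_num) h1
  · left
    have hd1 : d = 1 := by omega
    subst hd1
    refine ⟨?_, hdd⟩
    intro b hb
    have hbE : b ∈ E := (hE b).2 hb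
    have hfin : Finite E := inferInstance
    by_contra hne
    push Not at hne
    -- three different elements of a set of two elements
    have h3 : ({(0 : E), 1, ⟨b, hbE⟩} : Set E).ncard = 3 := by
      rw [Set.ncard_eq_three]
      refine ⟨0, 1, ⟨b, hbE⟩, zero_ne_one, ?_, ?_, rfl⟩
      · intro h
        exact hne.1 (congrArg Subtype.val h).symm
      · intro h
        exact hne.2 (congrArg Subtype.val h).symm
    have h4 := Set.ncard_le_card ({(0 : E), 1, ⟨b, hbE⟩} : Set E)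
    rw [h3, hd] at h4
    norm_num at h4

theorem tor_one : tor 1 = 3 := by
  unfold tor
  rw [if_neg (by decide)]
  norm_num

/-- The map to `Lam n`. -/
noncomputable def toLam {n : ℕ} (hn : Nat.card K = 2 ^ n) (X : Set.Ici (SS K)) : Lam n :=
  ⟨(Nat.card ((X : Subgroup (G2 K)) ⊓ TT K : Subgroup (G2 K)), dd (X : Subgroup (G2 K))), by
    rcases cases_of hn X.2 with ⟨h1, h2⟩ | ⟨E, d, h1, h2, h3, h4, h5⟩
    · left
      refine ⟨three_dvd X.2, ?_, h2⟩
      rw [← card_T hn]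
      exact Subgroup.card_dvd_of_le inf_le_right
    · right
      refine ⟨?_, ?_⟩
      · show dd (X : Subgroup (G2 K)) ∣ n
        rw [h5]
        exact h2
      · show Nat.card ((X : Subgroup (G2 K)) ⊓ TT K : Subgroup (G2 K)) =
          tor (dd (X : Subgroup (G2 K)))
        rw [h5, h4, inf_comm]
        exact card_TT E h3⟩

theorem toLam_le {n : ℕ} (hn : Nat.card K = 2 ^ n) (X Y : Set.Ici (SS K)) :
    toLam hn X ≤ toLam hn Y ↔ X ≤ Y := by
  rw [Lam.le_def]
  show (Nat.card ((X : Subgroup (G2 K)) ⊓ TT K : Subgroup (G2 K)) ∣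
    Nat.card ((Y : Subgroup (G2 K)) ⊓ TT K : Subgroup (G2 K)) ∧
      dd (X : Subgroup (G2 K)) ∣ dd (Y : Subgroup (G2 K))) ↔ X ≤ Y
  obtain ⟨X, hX⟩ := X
  obtain ⟨Y, hY⟩ := Y
  show (Nat.card (X ⊓ TT K : Subgroup (G2 K)) ∣ Nat.card (Y ⊓ TT K : Subgroup (G2 K)) ∧
      dd X ∣ dd Y) ↔ X ≤ Y
  constructor
  · rintro ⟨h1, h2⟩
    rcases cases_of hn hX with ⟨h3, h4⟩ | ⟨E, d, h3, h4, h5, h6, h7⟩
    · exact le_small hX hY h3 ((inf_le_iff X Y).2 h1)
    · rcases cases_of hn hY with ⟨h3', h4'⟩ | ⟨E', d', h3', h4', h5', h6', h7'⟩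
      · rw [h7, h4'] at h2
        have := Nat.le_of_dvd (by norm_num) h2
        omega
      · rw [h7, h7'] at h2
        have hEE : E ≤ E' := (sub_le h5 h5').2 h2
        rw [h6, h6']
        intro x hx
        rw [mem_sle] at hx ⊢
        exact ⟨hEE hx.1, hEE hx.2.1, hEE hx.2.2.1, hEE hx.2.2.2⟩
  · intro h
    refine ⟨(inf_le_iff X Y).1 (inf_le_inf_right _ h), ?_⟩
    obtain ⟨hu, hw⟩ := SS_le.1 hX
    obtain ⟨hu', hw'⟩ := SS_le.1 hY
    obtain ⟨E, hE⟩ := exists_fld hu hw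
    obtain ⟨d, hdn, hd0, hd⟩ := sub_card hn E
    obtain ⟨E', hE'⟩ := exists_fld hu' hw'
    obtain ⟨d', hdn', hd0', hd'⟩ := sub_card hn E'
    rw [dd_eq hE hd, dd_eq hE' hd', ← sub_le hd hd']
    intro b hb
    exact (hE' b).2 (h ((hE b).1 hb))

theorem toLam_surj {n : ℕ} (hn : Nat.card K = 2 ^ n) : Function.Surjective (toLam (K := K) hn) := by
  rintro ⟨⟨m, d⟩, h | h⟩
  · obtain ⟨h3, hm, hd⟩ := h
    simp only at h3 hm hd
    subst hd
    have := TT_cyclic (K := K)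
    rw [← card_T hn] at hm
    obtain ⟨H, hH⟩ := cyc_exists (A := TT K) hm
    -- the subgroup `O` of the torus
    have hO : H.map (TT K).subtype ≤ TT K := by
      rintro x ⟨y, _, rfl⟩
      exact y.2
    have hcard : Nat.card (H.map (TT K).subtype) = m := by
      rw [← hH]
      exact (Nat.card_congr
        (H.equivMapOfInjective (TT K).subtype (Subgroup.subtype_injective _)).toEquiv).symm
    have hc : uu (1 : K) * ww K ∈ H.map (TT K).subtype := by
      have h5 : Subgroup.zpowers (⟨uu (1 : K) * ww K, cc_mem⟩ : TT K) ≤ H := by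
        rw [cyc_le, Nat.card_zpowers, hH]
        have : orderOf (⟨uu (1 : K) * ww K, cc_mem⟩ : TT K) = 3 := by
          rw [← orderOf_cc (K := K)]
          exact (orderOf_injective (TT K).subtype (Subgroup.subtype_injective _) _).symm
        rw [this]
        exact h3
      exact ⟨⟨uu (1 : K) * ww K, cc_mem⟩, h5 (Subgroup.mem_zpowers _), rfl⟩
    have hS : SS K ≤ dih _ hO := by
      rw [SS_le]
      exact ⟨uu_mem_dih hO, Or.inr hc⟩
    refine ⟨⟨dih _ hO, hS⟩, ?_⟩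
    apply Subtype.ext
    show (Nat.card (dih _ hO ⊓ TT K : Subgroup (G2 K)), dd (dih _ hO)) = (m, 1)
    rw [dih_inf hO, hcard]
    congr 1
    rcases cases_of hn hS with ⟨_, h6⟩ | ⟨E, d, h6, h7, h8, h9, h10⟩
    · exact h6
    · exfalso
      have h11 : ∀ b : K, b ∈ E → b = 0 ∨ b = 1 := by
        intro b hb
        rw [uu_mem_sle, ← h9, uu_dih] at hb
        exact hb
      have h12 : Nat.card E ≤ 2 := by
        have h13 : (E : Set K) ⊆ ({0, 1} : Set K) := fun b hb => h11 b hb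
        have h14 := Set.ncard_le_ncard h13
        have h15 := Set.ncard_insert_le (0 : K) {1}
        rw [Set.ncard_singleton] at h15
        have h16 : Nat.card E = (E : Set K).ncard := rfl
        omega
      rw [h8] at h12
      have : 2 ^ 2 ≤ 2 ^ d := Nat.pow_le_pow_right (by norm_num) h6
      omega
  · obtain ⟨hd, hm⟩ := h
    simp only at hd hm
    subst hm
    obtain ⟨E, hE⟩ := sub_exists hn hd
    refine ⟨⟨sle E, SS_le_sle E⟩, ?_⟩
    apply Subtype.ext
    show (Nat.card (sle E ⊓ TT K : Subgroup (G2 K)), dd (sle E)) = (tor d, d)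
    rw [dd_eq (fun b => uu_mem_sle) hE, inf_comm, card_TT E hE]

/-- The lattice of the overgroups of `SL_2(2)` in `SL_2(2^n)`. -/
theorem iso_Lam {n : ℕ} (hn : Nat.card K = 2 ^ n) : Nonempty (Set.Ici (SS K) ≃o Lam n) := by
  have hinj : Function.Injective (toLam (K := K) hn) := by
    intro X Y h
    apply le_antisymm
    · rw [← toLam_le hn, h, toLam_le hn]
    · rw [← toLam_le hn, h, toLam_le hn]
  exact ⟨⟨Equiv.ofBijective _ ⟨hinj, toLam_surj hn⟩, toLam_le hn _ _⟩⟩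

end

end Pool.Agent.H33WL
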