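import Mathlib

/-!
# Representable lattices

`Representable L`: `L` is isomorphic to the congruence lattice of a finite algebra (the conclusion of
the frozen statement S14599 of MP_3b452d_lc).

# Block WL-R

* `rep_of_iso`: clear.
* `rep_unary`: it is enough to have a finite nonempty set `A` and a set `F` of maps `A → A` such that
  `L` is isomorphic to the set of all equivalence relations on `A` which are compatible with all
  `f ∈ F` (take the operations `⟨1, fun x => f (x 0)⟩`, `f ∈ F`).
* `rep_Ici`: the lattice of the subgroups `X ≥ H` of a finite group `G` is representable: `A = G ⧸ H`,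
  `F` = the left multiplications by the elements of `G`. To `X` corresponds the equivalence
  relation `g H ~ g' H ↔ g⁻¹ * g' ∈ X`; a compatible equivalence relation `r` gives
  `X = {g | r (1 H) (g H)}` (a subgroup containing `H`), and these maps are inverse to each other and
  monotone.
-/

set_option autoImplicit false

namespace Pool.Agent.H33WL

/-- `L` is isomorphic to the congruence lattice of a finite algebra. -/
def Representable (L : Type) [LE L] : Prop :=
  ∃ (A : Type) (_ : Finite A) (_ : Nonempty A) (F : Set (Σ k : ℕ, (Fin k → A) → A)),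
    Nonempty (L ≃o {r : Setoid A // ∀ f ∈ F, ∀ x y : Fin f.1 → A,
      (∀ i, r.r (x i) (y i)) → r.r (f.2 x) (f.2 y)})

theorem rep_of_iso {L L' : Type} [LE L] [LE L'] (e : L ≃o L') (h : Representable L) :
    Representable L' := by
  obtain ⟨A, hA, hA', F, ⟨f⟩⟩ := h
  exact ⟨A, hA, hA', F, ⟨e.symm.trans f⟩⟩

theorem rep_unary {L : Type} [LE L] (A : Type) [Finite A] [Nonempty A] (F : Set (A → A))
    (e : L ≃o {r : Setoid A // ∀ f ∈ F, ∀ x y : A, r.r x y → r.r (f x) (f y)}) :
    Representable L := by
  refine ⟨A, inferInstance, inferInstance,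
    {g | ∃ f ∈ F, g = ⟨1, fun x => f (x 0)⟩}, ⟨e.trans ?_⟩⟩
  have hiff : ∀ r : Setoid A, (∀ f ∈ F, ∀ x y : A, r.r x y → r.r (f x) (f y)) ↔
      ∀ g ∈ ({g | ∃ f ∈ F, g = ⟨1, fun x => f (x 0)⟩} : Set (Σ k : ℕ, (Fin k → A) → A)),
        ∀ x y : Fin g.1 → A, (∀ i, r.r (x i) (y i)) → r.r (g.2 x) (g.2 y) := by
    intro r
    constructor
    · rintro h g ⟨f, hf, rfl⟩ x y hxy
      exact h f hf _ _ (hxy 0)
    · intro h f hf x y hxy
      exact h ⟨1, fun x => f (x 0)⟩ ⟨f, hf, rfl⟩ (fun _ => x) (fun _ => y) fun _ => hxy
  exact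
    { toEquiv := Equiv.subtypeEquivRight hiff
      map_rel_iff' := Iff.rfl }

/-- The subgroup of a compatible equivalence relation. -/
private def subOf_h40 {G : Type} [Group G] (H : Subgroup G) (r : Setoid (G ⧸ H))
    (hr : ∀ (g : G) (x y : G ⧸ H), r.r x y → r.r (g • x) (g • y)) : Subgroup G where
  carrier := {g | r.r ((1 : G) : G ⧸ H) (g : G ⧸ H)}
  one_mem' := r.refl _
  mul_mem' := by
    intro a b ha hb
    refine r.trans ha ?_
    have h := hr a _ _ hb
    rw [MulAction.Quotient.smul_coe, MulAction.Quotient.smul_coe, smul_eq_mul, smul_eq_mul,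
      mul_one] at h
    exact h
  inv_mem' := by
    intro a ha
    refine r.symm ?_
    have h := hr a⁻¹ _ _ ha
    rw [MulAction.Quotient.smul_coe, MulAction.Quotient.smul_coe, smul_eq_mul, smul_eq_mul,
      mul_one, inv_mul_cancel] at h
    exact h

theorem rep_Ici {G : Type} [Group G] [Finite G] (H : Subgroup G) :
    Representable (Set.Ici H) := by
  refine rep_unary (G ⧸ H) {f | ∃ g : G, f = fun x => g • x} ?_
  refine
    { toFun := fun X => ⟨Setoid.ker (Subgroup.quotientMapOfLE X.2), ?_⟩
      invFun := fun r => ⟨subOf_h40 H r.1 fun g x y h => r.2 _ ⟨g, rfl⟩ x y h, ?_⟩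
      left_inv := ?_
      right_inv := ?_
      map_rel_iff' := ?_ }
  · rintro _ ⟨g, rfl⟩ x y h
    induction x using QuotientGroup.induction_on with
    | H x =>
      induction y using QuotientGroup.induction_on with
      | H y =>
        have h1 : (x : G ⧸ X.1) = (y : G ⧸ X.1) := h
        have h2 : ((g * x : G) : G ⧸ X.1) = ((g * y : G) : G ⧸ X.1) := by
          rw [QuotientGroup.eq] at h1 ⊢
          rw [mul_inv_rev, mul_assoc, inv_mul_cancel_left]
          exact h1
        exact h2
  · intro g hg
    have h1 : ((1 : G) : G ⧸ H) = (g : G ⧸ H) := by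
      rw [QuotientGroup.eq, inv_one, one_mul]
      exact hg
    change r.1.r ((1 : G) : G ⧸ H) (g : G ⧸ H)
    rw [← h1]
  · intro X
    apply Subtype.ext
    ext g
    change ((1 : G) : G ⧸ X.1) = (g : G ⧸ X.1) ↔ g ∈ X.1
    rw [QuotientGroup.eq, inv_one, one_mul]
  · intro r
    apply Subtype.ext
    apply Setoid.ext
    intro x y
    induction x using QuotientGroup.induction_on with
    | H x =>
      induction y using QuotientGroup.induction_on with
      | H y =>
        refine (QuotientGroup.eq (s := subOf_h40 H r.1 fun g x y h => r.2 _ ⟨g, rfl⟩ x y h)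
          (a := x) (b := y)).trans ?_
        change r.1.r ((1 : G) : G ⧸ H) ((x⁻¹ * y : G) : G ⧸ H) ↔ r.1.r (x : G ⧸ H) (y : G ⧸ H)
        constructor
        · intro h
          have h2 := r.2 _ ⟨x, rfl⟩ _ _ h
          simp only [MulAction.Quotient.smul_coe, smul_eq_mul, mul_one,
            mul_inv_cancel_left] at h2
          exact h2
        · intro h
          have h2 := r.2 _ ⟨x⁻¹, rfl⟩ _ _ h
          simp only [MulAction.Quotient.smul_coe, smul_eq_mul, inv_mul_cancel] at h2
          exact h2
  · intro X Y
    constructor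
    · intro h g hg
      have h1 : ((1 : G) : G ⧸ X.1) = (g : G ⧸ X.1) := by
        rw [QuotientGroup.eq, inv_one, one_mul]
        exact hg
      have h2 : ((1 : G) : G ⧸ Y.1) = (g : G ⧸ Y.1) :=
        h (show (Setoid.ker (Subgroup.quotientMapOfLE X.2)).r ((1 : G) : G ⧸ H) (g : G ⧸ H)
          from h1)
      rw [QuotientGroup.eq, inv_one, one_mul] at h2
      exact h2
    · intro h x y hxy
      induction x using QuotientGroup.induction_on with
      | H x =>
        induction y using QuotientGroup.induction_on with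
        | H y =>
          have h1 : (x : G ⧸ X.1) = (y : G ⧸ X.1) := hxy
          have h2 : (x : G ⧸ Y.1) = (y : G ⧸ Y.1) := by
            rw [QuotientGroup.eq] at h1 ⊢
            exact h h1
          exact h2

end Pool.Agent.H33WL
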