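import Pool.Agent.Helper33.WL.Iso
import Pool.Agent.Helper33.WL.Rep

/-!
# The lattices `Lam n` and DeMeo's lattice `L_7` are congruence lattices of finite algebras
-/

set_option autoImplicit false

namespace Pool.Agent.H33WL

/-- For every `n ≥ 1` the lattice `Lam n` is the congruence lattice of a finite algebra. -/
theorem rep_Lam (n : ℕ) (hn : n ≠ 0) : Representable (Lam n) := by
  have : Fact (Nat.Prime 2) := ⟨Nat.prime_two⟩
  obtain ⟨e⟩ := iso_Lam (K := GaloisField 2 n) (GaloisField.card 2 n hn)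
  exact rep_of_iso e (rep_Ici (SS (GaloisField 2 n)))

/-- The order relation of the seven-element lattice `L_7` (the winged `2 × 3`):
`0` is the bottom, `6` the top, `1, 2, 3` are the atoms, `1 < 4`, `1 < 5`, `2 < 5`. -/
def rel7 : Fin 7 → Fin 7 → Bool := fun i j =>
  i == j || i == 0 || j == 6 || (i == 1 && j == 4) || (i == 1 && j == 5) || (i == 2 && j == 5)

/-- The seven-element lattice `L_7`. -/
def L7 : Type := Fin 7

instance : LE L7 := ⟨fun i j => rel7 i j = true⟩

/-- The images in `Lam 6`. -/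
def tab : Fin 7 → ℕ × ℕ := ![(3, 1), (9, 1), (21, 1), (3, 2), (9, 3), (63, 1), (63, 6)]

theorem tor_six : tor 6 = 63 := by
  unfold tor
  rw [if_pos (by decide)]
  norm_num

theorem tor_two : tor 2 = 3 := by
  unfold tor
  rw [if_pos (by decide)]
  norm_num

theorem tor_three : tor 3 = 9 := by
  unfold tor
  rw [if_neg (by decide)]
  norm_num

theorem tab_mem (i : Fin 7) : (3 ∣ (tab i).1 ∧ (tab i).1 ∣ tor 6 ∧ (tab i).2 = 1) ∨
    ((tab i).2 ∣ 6 ∧ (tab i).1 = tor (tab i).2) := by
  rw [tor_six]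
  fin_cases i
  · left; decide
  · left; decide
  · left; decide
  · right
    show 2 ∣ 6 ∧ 3 = tor 2
    rw [tor_two]
    decide
  · right
    show 3 ∣ 6 ∧ 9 = tor 3
    rw [tor_three]
    decide
  · left; decide
  · right
    show 6 ∣ 6 ∧ 63 = tor 6
    rw [tor_six]
    decide

/-- `L_7` and `Lam 6`. -/
theorem iso_L7 : Nonempty (Lam 6 ≃o L7) := by
  let f : L7 → Lam 6 := fun i => ⟨tab i, tab_mem i⟩
  have hinj : Function.Injective f := by
    intro i j h
    have h1 : tab i = tab j := congrArg Subtype.val h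
    revert i j
    show ∀ i j : Fin 7, (⟨tab i, tab_mem i⟩ : Lam 6) = ⟨tab j, tab_mem j⟩ → tab i = tab j → i = j
    intro i j _
    revert i j
    decide
  have hsurj : Function.Surjective f := by
    rintro ⟨⟨m, d⟩, h | h⟩
    · obtain ⟨h1, h2, h3⟩ := h
      simp only at h1 h2 h3
      rw [tor_six] at h2
      subst h3
      have h4 : m ≤ 63 := Nat.le_of_dvd (by norm_num) h2
      have h5 : m = 3 ∨ m = 9 ∨ m = 21 ∨ m = 63 := by
        revert h2 h1
        interval_cases m <;> decide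
      rcases h5 with rfl | rfl | rfl | rfl
      · exact ⟨(0 : Fin 7), rfl⟩
      · exact ⟨(1 : Fin 7), rfl⟩
      · exact ⟨(2 : Fin 7), rfl⟩
      · exact ⟨(5 : Fin 7), rfl⟩
    · obtain ⟨h1, h2⟩ := h
      simp only at h1 h2
      subst h2
      have h4 : d ≤ 6 := Nat.le_of_dvd (by norm_num) h1
      have h5 : d = 1 ∨ d = 2 ∨ d = 3 ∨ d = 6 := by
        revert h1
        interval_cases d <;> decide
      rcases h5 with rfl | rfl | rfl | rfl
      · exact ⟨(0 : Fin 7), Subtype.ext (Prod.ext tor_one.symm rfl)⟩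
      · exact ⟨(3 : Fin 7), Subtype.ext (Prod.ext tor_two.symm rfl)⟩
      · exact ⟨(4 : Fin 7), Subtype.ext (Prod.ext tor_three.symm rfl)⟩
      · exact ⟨(6 : Fin 7), Subtype.ext (Prod.ext tor_six.symm rfl)⟩
  have hle : ∀ i j : L7, f i ≤ f j ↔ i ≤ j := by
    show ∀ i j : Fin 7, ((tab i).1 ∣ (tab j).1 ∧ (tab i).2 ∣ (tab j).2) ↔ rel7 i j = true
    decide
  let e : L7 ≃o Lam 6 := ⟨Equiv.ofBijective f ⟨hinj, hsurj⟩, hle _ _⟩
  exact ⟨e.symm⟩

/-- `L_7` is the congruence lattice of a finite algebra. -/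
theorem rep_seven : Representable L7 := by
  obtain ⟨e⟩ := iso_L7
  exact rep_of_iso e (rep_Lam 6 (by norm_num))

end Pool.Agent.H33WL
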